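import Mathlib

/-!
# MP_103a5c_SZ: the functional `J` (value of the discrete mean square of `c₀ + Y - ζ' M / L`)
-/

open MeasureTheory Set
open scoped Real

namespace Pool.Agent.H26.SZ

/-- `C(v) = P(0) (1/2 - v - v²/2) + (∫₀¹ P) (1 - v) - P(v)/2 - ∫_v¹ P`, the cross moment of `ζ' M / L` and a prime `T^v`. -/
noncomputable def CC (P : ℝ → ℝ) (v : ℝ) : ℝ :=
  P 0 * (1 / 2 - v - v ^ 2 / 2) + (∫ u in (0 : ℝ)..1, P u) * (1 - v) - P v / 2 - ∫ u in v..1, P u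

/-- `J(c₀, α, P)`: per zero, `E |c₀ + ∑ Λ(n) α(log n / L) n^{-ρ} / L - ζ'(ρ) M(ρ) / L|²`, `M = ∑ μ(k) P(log k / L) k^{-s}`. -/
noncomputable def JJ (c₀ : ℝ) (α P : ℝ → ℝ) : ℝ :=
  c₀ ^ 2 - 2 * c₀ * (∫ v in (0 : ℝ)..1, v * α v) + (∫ v in (0 : ℝ)..1, v * α v ^ 2)
    - 2 * (c₀ * (P 0 / 2 + ∫ v in (0 : ℝ)..1, P v) + ∫ v in (0 : ℝ)..1, α v * CC P v)
    + (P 0 ^ 2 / 3 + P 0 * (∫ v in (0 : ℝ)..1, P v) + (∫ v in (0 : ℝ)..1, P v) ^ 2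
      + 1 / 12 * ∫ v in (0 : ℝ)..1, deriv P v ^ 2)

end Pool.Agent.H26.SZ
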