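import Mathlib
import Pool.Agent.H6.PCDefs

/-!
# MP_103a5c_SZ, block F2: from Gaussian weights to counting functions
-/

open MeasureTheory Set Filter Topology
open scoped Real

namespace Pool.Agent.H26.SZ

open Pool.Agent

/-- the Gaussian weight `exp (-(t - T)² / Δ²)`, `Δ = T / √(log T)` -/
noncomputable def Gw (T t : ℝ) : ℝ := Real.exp (-((t - T) ^ 2 * Real.log T / T ^ 2))

lemma Gw_pos (T t : ℝ) : 0 < Gw T t := Real.exp_pos _

lemma Gw_exp (y g : ℝ) : Gw (Real.exp y) (Real.exp g) = Real.exp (-((Real.exp (g - y) - 1) ^ 2 * y)) := by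
  unfold Gw
  congr 2
  rw [Real.log_exp, Real.exp_sub]
  have := (Real.exp_pos y).ne'
  field_simp

lemma tendsto_K : Tendsto (fun R : ℝ => ∫ x in (-R)..R, Real.exp (-x ^ 2)) atTop (𝓝 (Real.sqrt π)) := by
  have hi : Integrable (fun x : ℝ => Real.exp (-x ^ 2)) := by
    simpa using integrable_exp_neg_mul_sq (b := 1) one_pos
  have h := intervalIntegral_tendsto_integral hi tendsto_neg_atTop_atBot tendsto_id
  have e : ∫ x : ℝ, Real.exp (-x ^ 2) = Real.sqrt π := by
    have := integral_gaussian 1
    simpa using this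
  rw [e] at h
  exact h

lemma int_gauss {A τ g : ℝ} (hA : 0 < A) :
    ∫ y in (g - τ)..(g + τ), Real.exp (-(A * (y - g) ^ 2)) =
      1 / Real.sqrt A * ∫ x in (-(τ * Real.sqrt A))..(τ * Real.sqrt A), Real.exp (-x ^ 2) := by
  have h1 := intervalIntegral.integral_comp_sub_right (fun x : ℝ => Real.exp (-(A * x ^ 2))) (a := g - τ) (b := g + τ) g
  rw [h1]
  have hs : 0 < Real.sqrt A := Real.sqrt_pos.2 hA
  have h2 := intervalIntegral.integral_comp_mul_left (fun x : ℝ => Real.exp (-x ^ 2)) (a := -τ) (b := τ) hs.ne'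
  have e : (fun x : ℝ => Real.exp (-(A * x ^ 2))) = fun x => Real.exp (-(Real.sqrt A * x) ^ 2) := by
    ext x
    rw [mul_pow, Real.sq_sqrt hA.le]
  rw [e, show g - τ - g = -τ by ring, show g + τ - g = τ by ring, h2, smul_eq_mul, one_div]
  congr 2 <;> ring

/-- the coverage of an ordinate `e^g` -/
theorem cov {τ : ℝ} (h0 : 0 < τ) (h1 : τ ≤ 1) : ∀ᶠ g : ℝ in atTop, Real.exp (-(2 * τ)) * Real.sqrt π ≤
    ∫ y in (g - τ)..(g + τ), Gw (Real.exp y) (Real.exp g) * Real.sqrt y := by
  set A : ℝ → ℝ := fun g => Real.exp (2 * τ) * (g + τ) with hA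
  have hAt : Tendsto A atTop atTop := (tendsto_atTop_add_const_right _ _ tendsto_id).const_mul_atTop (Real.exp_pos _)
  have hR : Tendsto (fun g => τ * Real.sqrt (A g)) atTop atTop :=
    (Real.tendsto_sqrt_atTop.comp hAt).const_mul_atTop h0
  have hK := tendsto_K.comp hR
  have hq : Tendsto (fun g : ℝ => Real.sqrt (g - τ) / Real.sqrt (A g)) atTop (𝓝 (Real.exp (-τ))) := by
    have e1 : Tendsto (fun g : ℝ => (g - τ) / (A g)) atTop (𝓝 (Real.exp (-(2 * τ)))) := by
      have e2 : Tendsto (fun g : ℝ => 1 - 2 * τ / (g + τ)) atTop (𝓝 1) := by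
        have : Tendsto (fun g : ℝ => 2 * τ / (g + τ)) atTop (𝓝 0) :=
          tendsto_const_nhds.div_atTop (tendsto_atTop_add_const_right _ _ tendsto_id)
        simpa using tendsto_const_nhds.sub this
      have e3 := e2.const_mul (Real.exp (-(2 * τ)))
      rw [mul_one] at e3
      refine e3.congr' ?_
      filter_upwards [eventually_gt_atTop 0] with g hg
      have hgt : g + τ ≠ 0 := by positivity
      rw [hA]
      simp only
      rw [Real.exp_neg]
      have := (Real.exp_pos (2 * τ)).ne'
      field_simp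
      ring
    have e4 := (Real.continuous_sqrt.tendsto _).comp e1
    have e5 : Real.sqrt (Real.exp (-(2 * τ))) = Real.exp (-τ) := by
      rw [show -(2 * τ) = -τ + -τ by ring, Real.exp_add, Real.sqrt_mul_self (Real.exp_pos _).le]
    rw [e5] at e4
    refine e4.congr' ?_
    filter_upwards [eventually_ge_atTop τ] with g hg
    simp only [Function.comp]
    rw [Real.sqrt_div (by linarith)]
  have hprod := hq.mul hK
  have hlt : Real.exp (-(2 * τ)) * Real.sqrt π < Real.exp (-τ) * Real.sqrt π := by
    have := Real.sqrt_pos.2 Real.pi_pos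
    have h3 : Real.exp (-(2 * τ)) < Real.exp (-τ) := Real.exp_lt_exp.2 (by linarith)
    nlinarith
  filter_upwards [hprod.eventually (lt_mem_nhds hlt), eventually_ge_atTop 2] with g h2 hg
  have hA0 : 0 < A g := by
    rw [hA]
    simp only
    have := Real.exp_pos (2 * τ)
    have : 0 < g + τ := by linarith
    positivity
  have hle : g - τ ≤ g + τ := by linarith
  have hcont : Continuous fun y : ℝ => Gw (Real.exp y) (Real.exp g) * Real.sqrt y := by
    simp_rw [Gw_exp]
    fun_prop
  have h3 : ∫ y in (g - τ)..(g + τ), Real.exp (-(A g * (y - g) ^ 2)) * Real.sqrt (g - τ) ≤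
      ∫ y in (g - τ)..(g + τ), Gw (Real.exp y) (Real.exp g) * Real.sqrt y := by
    refine intervalIntegral.integral_mono_on hle ?_ ?_ fun y hy => ?_
    · exact (Continuous.intervalIntegrable (by fun_prop) _ _)
    · exact hcont.intervalIntegrable _ _
    · have hy1 := hy.1
      have hy2 := hy.2
      have hy0 : 0 ≤ y := by linarith
      refine mul_le_mul ?_ (Real.sqrt_le_sqrt hy1) (Real.sqrt_nonneg _) (Gw_pos _ _).le
      rw [Gw_exp]
      refine Real.exp_le_exp.2 (neg_le_neg ?_)
      have h4 : |Real.exp (g - y) - 1| ≤ Real.exp τ * |y - g| := by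
        have h5 : ∀ r : ℝ, |r| ≤ τ → |Real.exp r - 1| ≤ Real.exp τ * |r| := by
          intro r hr
          have hr2 := abs_le.1 hr
          rcases le_total 0 r with h6 | h6
          · rw [abs_of_nonneg h6, abs_of_nonneg (by linarith [Real.one_le_exp h6])]
            have h7 : Real.exp r - 1 ≤ r * Real.exp r := by
              have := Real.add_one_le_exp (-r)
              have h8 := mul_le_mul_of_nonneg_right this (Real.exp_pos r).le
              rw [← Real.exp_add, neg_add_cancel, Real.exp_zero] at h8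
              linarith
            have h9 : Real.exp r ≤ Real.exp τ := Real.exp_le_exp.2 hr2.2
            nlinarith
          · rw [abs_of_nonpos h6, abs_of_nonpos (by linarith [Real.exp_le_one_iff.2 h6])]
            have h7 := Real.add_one_le_exp r
            have h9 : 1 ≤ Real.exp τ := Real.one_le_exp h0.le
            nlinarith
        have h10 := h5 (g - y) (by rw [abs_le]; constructor <;> linarith)
        rwa [abs_sub_comm g y] at h10
      have h11 : (Real.exp (g - y) - 1) ^ 2 ≤ Real.exp (2 * τ) * (y - g) ^ 2 := by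
        have h12 := pow_le_pow_left₀ (abs_nonneg _) h4 2
        rw [sq_abs, mul_pow, sq_abs, ← Real.exp_nat_mul] at h12
        simpa using h12
      calc (Real.exp (g - y) - 1) ^ 2 * y ≤ (Real.exp (2 * τ) * (y - g) ^ 2) * (g + τ) :=
            mul_le_mul h11 hy2 hy0 (by positivity)
        _ = A g * (y - g) ^ 2 := by rw [hA]; ring
  refine le_trans ?_ h3
  rw [intervalIntegral.integral_mul_const, int_gauss hA0]
  refine h2.le.trans (le_of_eq ?_)
  simp only [Function.comp]
  ring

end Pool.Agent.H26.SZ
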