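import Mathlib
import Pool.Agent.H26.SZ.Fa

/-!
# MP_103a5c_SZ, block F2: the counting lemma
-/

open MeasureTheory Set Filter Topology
open scoped Real

namespace Pool.Agent.H26.SZ

open Pool.Agent

/-- The bound for the Gaussian weights of total mass `κ`. -/
def GBound {ι : Type*} (γ u : ι → ℝ) (κ : ℝ) : Prop :=
  ∀ᶠ T in atTop, ∀ F : Finset ι, (∀ i ∈ F, γ i ∈ Icc (T / 4) (4 * T)) →
    ∑ i ∈ F, u i * Gw T (γ i) ≤ κ * (T * Real.sqrt (Real.log T) / (2 * Real.sqrt π))

lemma int_mul_exp {a b : ℝ} (ha : 0 ≤ a) (hab : a ≤ b) : ∫ y in a..b, y * Real.exp y ≤ b * Real.exp b := by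
  have h1 : ∫ y in a..b, y * Real.exp y ≤ ∫ y in a..b, b * Real.exp y := by
    refine intervalIntegral.integral_mono_on hab ?_ ?_ fun y hy => ?_
    · exact Continuous.intervalIntegrable (by fun_prop) _ _
    · exact Continuous.intervalIntegrable (by fun_prop) _ _
    · exact mul_le_mul_of_nonneg_right hy.2 (Real.exp_pos _).le
  refine h1.trans ?_
  rw [intervalIntegral.integral_const_mul, integral_exp]
  have := Real.exp_pos a
  have hb : 0 ≤ b := ha.trans hab
  nlinarith

theorem count_fin {ι : Type*} {γ u : ι → ℝ} (hu : ∀ i, 0 ≤ u i) {κ : ℝ} (hκ : 0 ≤ κ) (h : GBound γ u κ)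
    {τ : ℝ} (h0 : 0 < τ) (h1 : τ ≤ 1) : ∃ g₁ : ℝ, ∀ X : ℝ, g₁ ≤ Real.log X → 0 < X → ∀ F : Finset ι,
      (∀ i ∈ F, Real.exp g₁ ≤ γ i ∧ γ i ≤ X) → ∑ i ∈ F, u i ≤ κ * Real.exp (3 * τ) * (X / (2 * π)) * (Real.log X + τ) := by
  classical
  obtain ⟨T₀, hT₀⟩ := eventually_atTop.1 h
  obtain ⟨G₀, hG₀⟩ := eventually_atTop.1 (cov h0 h1)
  set g₁ : ℝ := max G₀ (max (|T₀| + 2) 2) with hg₁
  have hg1a : G₀ ≤ g₁ := le_max_left _ _
  have hg1b : |T₀| + 2 ≤ g₁ := (le_max_left _ _).trans (le_max_right _ _)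
  have hg1c : (2 : ℝ) ≤ g₁ := (le_max_right _ _).trans (le_max_right _ _)
  refine ⟨g₁, fun X hX hX0 F hF => ?_⟩
  set a := g₁ - τ with ha
  set b := Real.log X + τ with hb
  have ha0 : 0 ≤ a := by rw [ha]; linarith
  have hab : a ≤ b := by rw [ha, hb]; linarith
  have hgi : ∀ i ∈ F, g₁ ≤ Real.log (γ i) ∧ Real.log (γ i) ≤ Real.log X ∧ 0 < γ i := by
    intro i hi
    obtain ⟨h2, h3⟩ := hF i hi
    have hpos : 0 < γ i := (Real.exp_pos _).trans_le h2
    exact ⟨(Real.le_log_iff_exp_le hpos).2 h2, Real.log_le_log hpos h3, hpos⟩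
  set f : ι → ℝ → ℝ := fun i y => Gw (Real.exp y) (γ i) * Real.sqrt y with hf
  have hfc : ∀ i ∈ F, Continuous (f i) := by
    intro i hi
    have : f i = fun y => Real.exp (-((Real.exp (Real.log (γ i) - y) - 1) ^ 2 * y)) * Real.sqrt y := by
      ext y
      rw [hf]
      simp only
      rw [← Gw_exp, Real.exp_log (hgi i hi).2.2]
    rw [this]
    fun_prop
  have hf0 : ∀ i y, 0 ≤ f i y := fun i y => mul_nonneg (Gw_pos _ _).le (Real.sqrt_nonneg _)
  -- coverage
  set I : ι → Set ℝ := fun i => Ioc (Real.log (γ i) - τ) (Real.log (γ i) + τ) with hI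
  have hcov : ∀ i ∈ F, Real.exp (-(2 * τ)) * Real.sqrt π ≤ ∫ y in Ioc a b, (I i).indicator (f i) y := by
    intro i hi
    obtain ⟨h2, h3, h4⟩ := hgi i hi
    have h5 := hG₀ (Real.log (γ i)) (hg1a.trans h2)
    rw [Real.exp_log h4] at h5
    refine h5.trans (le_of_eq ?_)
    rw [intervalIntegral.integral_of_le (by linarith), setIntegral_indicator measurableSet_Ioc]
    congr 2
    rw [Ioc_inter_Ioc, max_eq_right (by rw [ha]; linarith), min_eq_right (by rw [hb]; linarith)]
  have hint : ∀ i ∈ F, Integrable ((I i).indicator (f i)) (volume.restrict (Ioc a b)) := by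
    intro i hi
    refine Integrable.indicator ?_ measurableSet_Ioc
    exact ((hfc i hi).integrableOn_Ioc)
  have hsum : (∑ i ∈ F, u i) * (Real.exp (-(2 * τ)) * Real.sqrt π) ≤
      ∫ y in Ioc a b, ∑ i ∈ F, u i * (I i).indicator (f i) y := by
    rw [integral_finsetSum _ fun i hi => (hint i hi).const_mul (u i), Finset.sum_mul]
    refine Finset.sum_le_sum fun i hi => ?_
    rw [integral_const_mul]
    exact mul_le_mul_of_nonneg_left (hcov i hi) (hu i)
  have hup : ∫ y in Ioc a b, ∑ i ∈ F, u i * (I i).indicator (f i) y ≤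
      ∫ y in Ioc a b, κ / (2 * Real.sqrt π) * (y * Real.exp y) := by
    refine setIntegral_mono_on ?_ ?_ measurableSet_Ioc fun y hy => ?_
    · exact integrable_finsetSum _ fun i hi => (hint i hi).const_mul (u i)
    · exact (Continuous.integrableOn_Ioc (by fun_prop))
    · have hy0 : 0 < y := by linarith [hy.1]
      have hT : T₀ ≤ Real.exp y := by
        have h6 := Real.add_one_le_exp y
        have h7 := le_abs_self T₀
        have h8 := hy.1
        rw [ha] at h8
        linarith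
      have h9 := hT₀ (Real.exp y) hT (F.filter fun i => y ∈ I i) (by
        intro i hi
        obtain ⟨h10, h11⟩ := Finset.mem_filter.1 hi
        obtain ⟨_, _, h12⟩ := hgi i h10
        rw [hI] at h11
        simp only [mem_Ioc] at h11
        have h13 : Real.exp (y - 1) ≤ γ i := by
          rw [← Real.le_log_iff_exp_le h12]; linarith
        have h14 : γ i ≤ Real.exp (y + 1) := by
          rw [← Real.log_le_iff_le_exp h12]; linarith
        have he1 : Real.exp 1 ≤ 4 := by linarith [Real.exp_one_lt_d9]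
        constructor
        · refine le_trans ?_ h13
          rw [Real.exp_sub]
          exact div_le_div_of_nonneg_left (Real.exp_pos _).le (Real.exp_pos _) he1
        · refine h14.trans ?_
          rw [Real.exp_add, mul_comm]
          exact mul_le_mul_of_nonneg_right he1 (Real.exp_pos _).le)
      rw [Real.log_exp] at h9
      have h15 : ∑ i ∈ F, u i * (I i).indicator (f i) y = (∑ i ∈ F.filter (fun i => y ∈ I i), u i * Gw (Real.exp y) (γ i)) * Real.sqrt y := by
        rw [Finset.sum_filter, Finset.sum_mul]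
        refine Finset.sum_congr rfl fun i hi => ?_
        by_cases hc : y ∈ I i
        · rw [indicator_of_mem hc, if_pos hc, hf]; simp only; ring
        · rw [indicator_of_notMem hc, if_neg hc]; ring
      rw [h15]
      refine (mul_le_mul_of_nonneg_right h9 (Real.sqrt_nonneg y)).trans (le_of_eq ?_)
      have h16 := Real.mul_self_sqrt hy0.le
      calc κ * (Real.exp y * Real.sqrt y / (2 * Real.sqrt π)) * Real.sqrt y
          = κ / (2 * Real.sqrt π) * ((Real.sqrt y * Real.sqrt y) * Real.exp y) := by ring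
        _ = _ := by rw [h16]
  have hfin : ∫ y in Ioc a b, κ / (2 * Real.sqrt π) * (y * Real.exp y) ≤ κ / (2 * Real.sqrt π) * (b * Real.exp b) := by
    rw [integral_const_mul, ← intervalIntegral.integral_of_le hab]
    exact mul_le_mul_of_nonneg_left (int_mul_exp ha0 hab) (by positivity)
  have hall := hsum.trans (hup.trans hfin)
  have hsp : 0 < Real.sqrt π := Real.sqrt_pos.2 Real.pi_pos
  have hsq := Real.mul_self_sqrt Real.pi_pos.le
  have hE : 0 < Real.exp (-(2 * τ)) := Real.exp_pos _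
  have h17 : ∑ i ∈ F, u i ≤ κ / (2 * Real.sqrt π) * (b * Real.exp b) / (Real.exp (-(2 * τ)) * Real.sqrt π) := by
    rw [le_div_iff₀ (by positivity)]
    exact hall
  refine h17.trans (le_of_eq ?_)
  have h18 : Real.exp b = X * Real.exp τ := by rw [hb, Real.exp_add, Real.exp_log hX0]
  have h19 : Real.exp (3 * τ) = Real.exp τ * Real.exp (2 * τ) := by rw [← Real.exp_add]; congr 1; ring
  rw [h18, h19, Real.exp_neg, hb]
  have hE2 := (Real.exp_pos (2 * τ)).ne'
  have e1 : κ / (2 * Real.sqrt π) * ((Real.log X + τ) * (X * Real.exp τ)) / ((Real.exp (2 * τ))⁻¹ * Real.sqrt π) =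
      κ * (Real.exp τ * Real.exp (2 * τ)) * X * (Real.log X + τ) / (2 * (Real.sqrt π * Real.sqrt π)) := by
    field_simp
  rw [e1, hsq]
  field_simp

/-- The counting lemma. -/
theorem count {ι : Type*} {γ u : ι → ℝ} {S : ℝ → Finset ι} (hS : ∀ X i, i ∈ S X ↔ 0 < γ i ∧ γ i ≤ X)
    (hu : ∀ i, 0 ≤ u i) {κ : ℝ} (hκ : 0 ≤ κ) (h : GBound γ u κ) {ε : ℝ} (hε : 0 < ε) :
    ∀ᶠ X in atTop, ∑ i ∈ S X, u i ≤ (κ + ε) * PC.norm X := by
  classical
  -- choose τ
  have hτ : ∃ τ : ℝ, 0 < τ ∧ τ ≤ 1 ∧ κ * Real.exp (3 * τ) < κ + ε / 4 := by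
    have h1 : Tendsto (fun τ : ℝ => κ * Real.exp (3 * τ)) (𝓝[>] 0) (𝓝 κ) := by
      have : Tendsto (fun τ : ℝ => κ * Real.exp (3 * τ)) (𝓝 0) (𝓝 (κ * Real.exp (3 * 0))) :=
        (by fun_prop : Continuous fun τ : ℝ => κ * Real.exp (3 * τ)).tendsto 0
      rw [mul_zero, Real.exp_zero, mul_one] at this
      exact this.mono_left nhdsWithin_le_nhds
    have h2 := h1.eventually (gt_mem_nhds (by linarith : κ < κ + ε / 4))
    have h3 : ∀ᶠ τ : ℝ in 𝓝[>] 0, 0 < τ ∧ τ ≤ 1 := by
      filter_upwards [self_mem_nhdsWithin, mem_nhdsWithin_of_mem_nhds (Iic_mem_nhds (zero_lt_one' ℝ))] with τ h4 h5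
      exact ⟨h4, h5⟩
    obtain ⟨τ, h4, h5⟩ := (h2.and h3).exists
    exact ⟨τ, h5.1, h5.2, h4⟩
  obtain ⟨τ, h0, h1, hτε⟩ := hτ
  obtain ⟨g₁, hg₁⟩ := count_fin hu hκ h h0 h1
  set C := ∑ i ∈ S (Real.exp g₁), u i with hC
  have hC0 : 0 ≤ C := Finset.sum_nonneg fun i _ => hu i
  have hn : Tendsto PC.norm atTop atTop := by
    have e : PC.norm = fun X => X / (2 * π) * Real.log X := rfl
    rw [e]
    exact (tendsto_id.atTop_div_const (by positivity)).atTop_mul_atTop₀ Real.tendsto_log_atTop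
  have hlog : Tendsto (fun X : ℝ => (κ + ε / 4) * (1 + τ / Real.log X)) atTop (𝓝 (κ + ε / 4)) := by
    have h2 : Tendsto (fun X : ℝ => τ / Real.log X) atTop (𝓝 0) := tendsto_const_nhds.div_atTop Real.tendsto_log_atTop
    have h3 := (tendsto_const_nhds (x := (1 : ℝ))).add h2
    rw [add_zero] at h3
    simpa using h3.const_mul (κ + ε / 4)
  filter_upwards [hlog.eventually (gt_mem_nhds (by linarith : κ + ε / 4 < κ + ε / 2)), hn.eventually_ge_atTop (2 * C / ε),
    Real.tendsto_log_atTop.eventually_ge_atTop g₁, Real.tendsto_log_atTop.eventually_gt_atTop 0, eventually_gt_atTop (0 : ℝ)]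
    with X h2 h3 h4 h5 h6
  have hN : PC.norm X = X / (2 * π) * Real.log X := rfl
  have hN0 : 0 ≤ PC.norm X := by rw [hN]; positivity
  have h7 : ∑ i ∈ S X, u i ≤ C + ∑ i ∈ (S X).filter (fun i => Real.exp g₁ ≤ γ i), u i := by
    rw [← Finset.sum_filter_add_sum_filter_not (S X) (fun i => Real.exp g₁ ≤ γ i), add_comm]
    refine add_le_add_left ?_ _
    rw [hC]
    refine Finset.sum_le_sum_of_subset_of_nonneg ?_ fun i _ _ => hu i
    intro i hi
    obtain ⟨h8, h9⟩ := Finset.mem_filter.1 hi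
    exact (hS _ _).2 ⟨((hS _ _).1 h8).1, (not_le.1 h9).le⟩
  have h8 := hg₁ X h4 h6 ((S X).filter (fun i => Real.exp g₁ ≤ γ i)) (by
    intro i hi
    obtain ⟨h8, h9⟩ := Finset.mem_filter.1 hi
    exact ⟨h9, ((hS _ _).1 h8).2⟩)
  have h9 : κ * Real.exp (3 * τ) * (X / (2 * π)) * (Real.log X + τ) ≤ (κ + ε / 2) * PC.norm X := by
    have h10 : κ * Real.exp (3 * τ) * (X / (2 * π)) * (Real.log X + τ) ≤
        ((κ + ε / 4) * (1 + τ / Real.log X)) * PC.norm X := by
      rw [hN]
      have e : (κ + ε / 4) * (1 + τ / Real.log X) * (X / (2 * π) * Real.log X) =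
          (κ + ε / 4) * (X / (2 * π)) * (Real.log X + τ) := by
        field_simp
      rw [e]
      gcongr
    exact h10.trans (mul_le_mul_of_nonneg_right h2.le hN0)
  have h10 : C ≤ ε / 2 * PC.norm X := by
    rw [div_le_iff₀ hε] at h3
    linarith
  calc ∑ i ∈ S X, u i ≤ C + ∑ i ∈ (S X).filter (fun i => Real.exp g₁ ≤ γ i), u i := h7
    _ ≤ ε / 2 * PC.norm X + (κ + ε / 2) * PC.norm X := add_le_add h10 (h8.trans h9)
    _ = (κ + ε) * PC.norm X := by ring

end Pool.Agent.H26.SZ
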