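import Mathlib
import Pool.Agent.H98.HF.Nb
import Pool.Agent.H6.Final

/-!
# MP_103a5c_SZ, block F1: the certificate at multiple zeros
-/

open MeasureTheory Set Filter Topology
open scoped Real

namespace Pool.Agent.H26.SZ

open Pool.Agent Pool.Agent.H6

/-- At a zero of multiplicity `m` the prime polynomial is at least `m ψ(0)` up to `o(1)`. -/
theorem cert_WW (RH : RiemannHypothesis) {χ : ℝ → ℝ} (hχ : Nice χ) (hpos : ∀ x, 0 ≤ cosT χ x) {ε : ℝ} (hε : 0 < ε) :
    ∀ᶠ T in atTop, ∀ i : PC.Z, gZ i ∈ Icc (T / 4) (4 * T) →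
      wZ i * cosT χ 0 - ε ≤ χ 0 - WW (cosT χ) (Real.log T) (gZ i) := by
  obtain ⟨CR, I⟩ := exists_inputs RH
  obtain ⟨a, ha, hP⟩ := Pool.Agent.H98.HF.zeta_poisson RH
  have hcount : Countable PC.Z := (zetaFacts RH).countable.to_subtype
  obtain ⟨s, hs0, hs⟩ := hχ.supp
  have hφ : TestFn s (cosT χ) := (hχ.reg hs).test
  filter_upwards [Pool.Agent.H98.HF.delta_long I ha hP hχ (by norm_num : (0 : ℝ) < 1 / 4) (by norm_num : (1 : ℝ) / 4 < 4) hε,
    Real.tendsto_log_atTop.eventually_ge_atTop (2 * π)] with T h1 hL i hi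
  have h2 := h1 (gZ i) (by rwa [show 1 / 4 * T = T / 4 by ring])
  have h3 : wZ i * cosT χ 0 ≤ SS gZ wZ (cosT χ) (Real.log T) (gZ i) := by
    have hsum : Summable fun j => wZ j * cosT χ (Real.log T * (gZ i - gZ j) / (2 * π)) := by
      obtain ⟨D, hD0, hD⟩ := hφ.decay
      exact (I.ord.summable_phi hD0 hD hL (gZ i)).of_abs
    have h4 := hsum.le_tsum i fun j _ => mul_nonneg (wZ_nonneg j) (hpos _)
    rw [sub_self, mul_zero, zero_div] at h4
    exact h4
  rw [abs_le] at h2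
  linarith [h2.2]

end Pool.Agent.H26.SZ
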