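import Mathlib
import Pool.Agent.H26.SZ.Fb
import Pool.Agent.H26.SZ.Fc

/-!
# MP_103a5c_SZ, block F4: the final theorem from the moment bound
-/

open MeasureTheory Set Filter Topology
open scoped Real

namespace Pool.Agent.H26.SZ

open Pool.Agent Pool.Agent.H6

/-- The zero with ordinate `i`. -/
noncomputable def rZ (i : PC.Z) : ℂ := 1 / 2 + ((i : ℝ) : ℂ) * Complex.I

lemma pairCount_zero (RH : RiemannHypothesis) (T : ℝ) : PC.pairCount T 0 0 = ∑ i ∈ FZ T, wZ i * wZ i := by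
  rw [pairCount_eq RH]
  refine Finset.sum_congr rfl fun i hi => ?_
  rw [Finset.sum_eq_single i]
  · simp
  · intro j _ hji
    rw [if_neg]
    rintro ⟨h1, h2⟩
    apply hji
    apply Subtype.ext
    have : gZ i = gZ j := by
      simp only [mul_zero, zero_div] at h1 h2
      linarith
    exact this.symm
  · intro h
    exact absurd hi h

lemma zeta_analyticAt {s : ℂ} (hs : s ≠ 1) : AnalyticAt ℂ riemannZeta s := by
  have h : DifferentiableOn ℂ riemannZeta {1}ᶜ := fun z hz => (differentiableAt_riemannZeta hz).differentiableWithinAt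
  exact h.analyticAt (isOpen_compl_singleton.mem_nhds hs)

lemma rZ_ne_one (i : PC.Z) : rZ i ≠ 1 := by
  intro h
  have := congrArg Complex.re h
  simp [rZ] at this

lemma zeta_order_ne_top {s : ℂ} (hs : s ≠ 1) : analyticOrderAt riemannZeta s ≠ ⊤ := by
  intro h
  have hz : ∀ᶠ z in 𝓝 s, riemannZeta z = 0 := analyticOrderAt_eq_top.1 h
  have hU : IsPreconnected ({1}ᶜ : Set ℂ) :=
    (isConnected_compl_singleton_of_one_lt_rank (by simp) 1).isPreconnected
  have h2 : AnalyticOnNhd ℂ riemannZeta {1}ᶜ := fun z hz => zeta_analyticAt hz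
  have h3 := h2.eqOn_zero_of_preconnected_of_eventuallyEq_zero hU hs hz
  have h4 := h3 (show (2 : ℂ) ∈ ({1}ᶜ : Set ℂ) by simp)
  exact riemannZeta_ne_zero_of_one_le_re (s := 2) (by norm_num) h4

lemma order_one_iff {s : ℂ} (hs : s ≠ 1) (h0 : riemannZeta s = 0) :
    analyticOrderAt riemannZeta s = 1 ↔ deriv riemannZeta s ≠ 0 := by
  have ha := zeta_analyticAt hs
  constructor
  · intro h
    have h1 := ha.analyticOrderAt_deriv_add_one
    simp only [h0, sub_zero] at h1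
    rw [h] at h1
    have h2 : analyticOrderAt (deriv riemannZeta) s = 0 := by
      have h3 : analyticOrderAt (deriv riemannZeta) s + 1 = 0 + 1 := by rw [h1, zero_add]
      exact ENat.add_left_injective_of_ne_top (n := 1) (by simp) h3
    exact (ha.deriv.analyticOrderAt_eq_zero).1 h2
  · intro h
    exact ha.analyticOrderAt_eq_one_of_zero_deriv_ne_zero h0 h

/-- At a multiple zero the derivative vanishes; at a simple zero it does not. -/
lemma wZ_eq_one_iff (i : PC.Z) : wZ i = 1 ↔ deriv riemannZeta (rZ i) ≠ 0 := by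
  rw [← order_one_iff (rZ_ne_one i) i.2]
  have hne := zeta_order_ne_top (rZ_ne_one i)
  have h1 := Nat.cast_analyticOrderNatAt hne
  rw [← h1]
  have h2 : wZ i = (analyticOrderNatAt riemannZeta (rZ i) : ℝ) := rfl
  rw [h2]
  norm_cast

/-- The moment bound with constant `J`, for the zeros in `[T/4, 4T]`. -/
def MBound (Fs : ℝ → ℂ → ℂ) (J : ℝ) : Prop :=
  ∀ ε : ℝ, 0 < ε → ∀ᶠ T in atTop, ∀ F : Finset PC.Z, (∀ i ∈ F, gZ i ∈ Icc (T / 4) (4 * T)) →
    ∑ i ∈ F, wZ i * (Gw T (gZ i) * ‖Fs T (rZ i)‖ ^ 2) ≤ (J + ε) * (T * Real.sqrt (Real.log T) / (2 * Real.sqrt π))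

lemma wZ_cases (i : PC.Z) : wZ i = 1 ∨ 2 ≤ wZ i := by
  have h := one_le_wZ i
  unfold wZ at h ⊢
  have h1 : 1 ≤ PC.m i := by exact_mod_cast h
  rcases Nat.eq_or_lt_of_le h1 with h2 | h2
  · left; exact_mod_cast h2.symm
  · right; exact_mod_cast h2

/-- The bound for the multiplicities: `∑ m(ρ) (m(ρ) - 1) ≤ (J + ε) (T/2π) log T`. -/
theorem mult_bound (RH : RiemannHypothesis) {χ : ℝ → ℝ} (hχ : Nice χ) (hpos : ∀ x, 0 ≤ cosT χ x)
    (hβ : Real.sqrt 2 - 1 ≤ cosT χ 0) {J : ℝ} (hJ : 0 ≤ J) {Ys Ms : ℝ → ℂ → ℂ}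
    (hY : ∀ᶠ T in atTop, ∀ t : ℝ, (Ys T (1 / 2 + (t : ℂ) * Complex.I)).re =
      (1 + χ 0 - 2 * cosT χ 0) - WW (cosT χ) (Real.log T) t)
    (hM : MBound (fun T s => Ys T s - deriv riemannZeta s * Ms T s) J) {ε : ℝ} (hε : 0 < ε) :
    ∀ᶠ T in atTop, ∑ i ∈ FZ T, wZ i * (wZ i - 1) ≤ (J + ε) * PC.norm T := by
  set β := cosT χ 0 with hβd
  have hs2 := Real.sq_sqrt (show (0 : ℝ) ≤ 2 by norm_num)
  have hs20 := Real.sqrt_nonneg 2
  have hβ0 : 0 < β := by
    have : (1 : ℝ) < Real.sqrt 2 := by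
      rw [show (1 : ℝ) = Real.sqrt 1 by simp]
      exact Real.sqrt_lt_sqrt (by norm_num) (by norm_num)
    linarith
  -- algebra: `(1 + (m - 2) β)² ≥ m - 1`
  have halg : ∀ m : ℝ, m = 2 ∨ 3 ≤ m → m - 1 ≤ (1 + (m - 2) * β) ^ 2 := by
    intro m hm
    rcases hm with h | h
    · rw [h]; norm_num
    · have h1 : 1 ≤ 2 * β + β ^ 2 := by nlinarith
      have h2 : (1 + (m - 2) * β) ^ 2 - (m - 1) = (m - 2) * (2 * β + (m - 2) * β ^ 2 - 1) := by ring
      have h3 : 0 ≤ (m - 2) * (2 * β + (m - 2) * β ^ 2 - 1) := by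
        apply mul_nonneg (by linarith)
        nlinarith [sq_nonneg β]
      linarith
  -- choose the loss
  obtain ⟨η, hη0, hη1, hη2⟩ : ∃ η : ℝ, 0 < η ∧ η < 1 ∧ (J + η) / (1 - η) ^ 2 < J + ε / 2 := by
    have h1 : Tendsto (fun η : ℝ => (J + η) / (1 - η) ^ 2) (𝓝[>] 0) (𝓝 J) := by
      have h2 : ContinuousAt (fun η : ℝ => (J + η) / (1 - η) ^ 2) 0 := by
        apply ContinuousAt.div (by fun_prop) (by fun_prop) (by norm_num)
      have h3 := h2.tendsto
      simp only [add_zero, sub_zero, one_pow, div_one] at h3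
      exact h3.mono_left nhdsWithin_le_nhds
    have h4 := h1.eventually (gt_mem_nhds (by linarith : J < J + ε / 2))
    have h5 : ∀ᶠ η : ℝ in 𝓝[>] 0, 0 < η ∧ η < 1 := by
      filter_upwards [self_mem_nhdsWithin, mem_nhdsWithin_of_mem_nhds (Iio_mem_nhds (zero_lt_one' ℝ))] with η h6 h7
      exact ⟨h6, h7⟩
    obtain ⟨η, h6, h7⟩ := (h4.and h5).exists
    exact ⟨η, h7.1, h7.2, h6⟩
  have h1η : 0 < (1 - η) ^ 2 := by have : 0 < 1 - η := by linarith
                                   positivity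
  have hG : GBound gZ (fun i => wZ i * (wZ i - 1)) ((J + η) / (1 - η) ^ 2) := by
    filter_upwards [cert_WW RH hχ hpos hη0, hM η hη0, hY] with T hc hb hYT F hF
    have h1 := hb F hF
    have h2 : ∀ i ∈ F, wZ i * (wZ i - 1) * Gw T (gZ i) ≤
        1 / (1 - η) ^ 2 * (wZ i * (Gw T (gZ i) * ‖Ys T (rZ i) - deriv riemannZeta (rZ i) * Ms T (rZ i)‖ ^ 2)) := by
      intro i hi
      rcases wZ_cases i with h3 | h3
      · rw [h3, sub_self, mul_zero, zero_mul]
        have := Gw_pos T (gZ i)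
        positivity
      · have hd : deriv riemannZeta (rZ i) = 0 := by
          by_contra h4
          have := (wZ_eq_one_iff i).2 h4
          linarith
        rw [hd, zero_mul, sub_zero]
        have h4 := hc i (hF i hi)
        have h5 : 1 + (wZ i - 2) * β - η ≤ (Ys T (rZ i)).re := by
          have h6 := hYT (gZ i)
          have h7 : (1 / 2 + ((gZ i : ℝ) : ℂ) * Complex.I) = rZ i := rfl
          rw [h7] at h6
          rw [h6]
          linarith
        have h6 : (1 - η) * (1 + (wZ i - 2) * β) ≤ (Ys T (rZ i)).re := by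
          refine le_trans ?_ h5
          have h7 : 0 ≤ (wZ i - 2) * β := mul_nonneg (by linarith) hβ0.le
          nlinarith
        have h7 : 0 ≤ (1 - η) * (1 + (wZ i - 2) * β) := by
          have h8 : 0 ≤ (wZ i - 2) * β := mul_nonneg (by linarith) hβ0.le
          exact mul_nonneg (by linarith) (by linarith)
        have h8 : ((1 - η) * (1 + (wZ i - 2) * β)) ^ 2 ≤ ‖Ys T (rZ i)‖ ^ 2 := by
          apply pow_le_pow_left₀ h7
          exact h6.trans ((le_abs_self _).trans (Complex.abs_re_le_norm _))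
        have h9 : wZ i - 1 ≤ (1 + (wZ i - 2) * β) ^ 2 := by
          apply halg
          unfold wZ at h3 ⊢
          have h10 : 2 ≤ PC.m i := by exact_mod_cast h3
          rcases Nat.eq_or_lt_of_le h10 with h11 | h11
          · left; exact_mod_cast h11.symm
          · right; exact_mod_cast h11
        have h10 : (wZ i - 1) * (1 - η) ^ 2 ≤ ‖Ys T (rZ i)‖ ^ 2 := by
          refine le_trans ?_ h8
          rw [mul_pow, mul_comm]
          exact mul_le_mul_of_nonneg_left h9 h1η.le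
        have h11 : 0 ≤ wZ i * Gw T (gZ i) := mul_nonneg (wZ_nonneg i) (Gw_pos _ _).le
        have h12 := mul_le_mul_of_nonneg_left h10 h11
        rw [one_div, ← div_eq_inv_mul, le_div_iff₀ h1η]
        calc wZ i * (wZ i - 1) * Gw T (gZ i) * (1 - η) ^ 2 = wZ i * Gw T (gZ i) * ((wZ i - 1) * (1 - η) ^ 2) := by ring
          _ ≤ wZ i * Gw T (gZ i) * ‖Ys T (rZ i)‖ ^ 2 := h12
          _ = _ := by ring
    calc ∑ i ∈ F, wZ i * (wZ i - 1) * Gw T (gZ i) ≤ ∑ i ∈ F, 1 / (1 - η) ^ 2 *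
        (wZ i * (Gw T (gZ i) * ‖Ys T (rZ i) - deriv riemannZeta (rZ i) * Ms T (rZ i)‖ ^ 2)) := Finset.sum_le_sum h2
      _ = 1 / (1 - η) ^ 2 * ∑ i ∈ F, wZ i * (Gw T (gZ i) * ‖Ys T (rZ i) - deriv riemannZeta (rZ i) * Ms T (rZ i)‖ ^ 2) := by
        rw [← Finset.mul_sum]
      _ ≤ 1 / (1 - η) ^ 2 * ((J + η) * (T * Real.sqrt (Real.log T) / (2 * Real.sqrt π))) :=
        mul_le_mul_of_nonneg_left h1 (by positivity)
      _ = _ := by ring
  have hu : ∀ i : PC.Z, 0 ≤ wZ i * (wZ i - 1) := fun i => mul_nonneg (wZ_nonneg i) (by linarith [one_le_wZ i])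
  filter_upwards [count mem_FZ hu (by positivity) hG (half_pos hε), eventually_gt_atTop (1 : ℝ)] with T hT hT1
  refine hT.trans (mul_le_mul_of_nonneg_right (by linarith) ?_)
  have : PC.norm T = T / (2 * π) * Real.log T := rfl
  rw [this]
  have := Real.log_pos hT1
  positivity

/-- `N(T; 0, 0)`, simple zeros and distinct zeros from the bound for the multiplicities. -/
theorem counts (RH : RiemannHypothesis) {J : ℝ} (h : ∀ ε : ℝ, 0 < ε → ∀ᶠ T in atTop, ∑ i ∈ FZ T, wZ i * (wZ i - 1) ≤ (J + ε) * PC.norm T)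
    {ε : ℝ} (hε : 0 < ε) : ∀ᶠ T in atTop,
      PC.pairCount T 0 0 ≤ (1 + J + ε) * PC.norm T ∧
      (1 - J - ε) * PC.norm T ≤ (({ρ : ℂ | ρ ∈ PC.zerosUpTo T ∧ deriv riemannZeta ρ ≠ 0}.ncard : ℕ) : ℝ) ∧
      (1 - J / 2 - ε) * PC.norm T ≤ (((PC.zerosUpTo T).ncard : ℕ) : ℝ) := by
  classical
  obtain ⟨CR, I⟩ := exists_inputs RH
  have hcount : Countable PC.Z := (zetaFacts RH).countable.to_subtype
  have hc := I.count
  filter_upwards [h (ε / 2) (half_pos hε), hc.eventually (gt_mem_nhds (by linarith : (1 : ℝ) < 1 + ε / 2)),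
    hc.eventually (lt_mem_nhds (by linarith : 1 - ε / 2 < (1 : ℝ))), eventually_gt_atTop (1 : ℝ)] with T h1 h2 h3 hT
  have hN0 : 0 < PC.norm T := by
    have : PC.norm T = T / (2 * π) * Real.log T := rfl
    rw [this]
    have := Real.log_pos hT
    positivity
  have h4 : ∑ i ∈ FZ T, wZ i ≤ (1 + ε / 2) * PC.norm T := by
    rw [one_div, ← div_eq_inv_mul, div_lt_iff₀ hN0] at h2
    exact h2.le
  have h5 : (1 - ε / 2) * PC.norm T ≤ ∑ i ∈ FZ T, wZ i := by
    rw [one_div, ← div_eq_inv_mul, lt_div_iff₀ hN0] at h3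
    exact h3.le
  have hinj : Function.Injective rZ := by
    intro i j hij
    have := congrArg Complex.im hij
    simp [rZ] at this
    exact Subtype.ext this
  have hset : PC.zerosUpTo T = rZ '' (FZ T : Set PC.Z) := by
    ext ρ
    constructor
    · rintro ⟨a1, a2, a3, a4, a5⟩
      have e1 := re_eq_half RH a1 a2 a3
      have z1 : ρ.im ∈ PC.Z := by unfold PC.Z; simp only [Set.mem_ofPred_eq]; rw [← e1]; exact a1
      exact ⟨⟨ρ.im, z1⟩, (mem_FZ _ _).2 ⟨a4, a5⟩, e1.symm⟩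
    · rintro ⟨i, hi, rfl⟩
      obtain ⟨a4, a5⟩ := (mem_FZ _ _).1 hi
      refine ⟨i.2, ?_, ?_, ?_, ?_⟩
      · simp [rZ]
      · simp [rZ]; norm_num
      · simpa [rZ, gZ] using a4
      · simpa [rZ, gZ] using a5
  refine ⟨?_, ?_, ?_⟩
  · rw [pairCount_zero RH]
    have e : ∑ i ∈ FZ T, wZ i * wZ i = ∑ i ∈ FZ T, wZ i * (wZ i - 1) + ∑ i ∈ FZ T, wZ i := by
      rw [← Finset.sum_add_distrib]
      exact Finset.sum_congr rfl fun i _ => by ring
    rw [e]
    linarith
  · have e : {ρ : ℂ | ρ ∈ PC.zerosUpTo T ∧ deriv riemannZeta ρ ≠ 0} =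
        rZ '' (((FZ T).filter (fun i => wZ i = 1) : Finset PC.Z) : Set PC.Z) := by
      ext ρ
      rw [hset]
      constructor
      · rintro ⟨⟨i, hi, rfl⟩, h6⟩
        exact ⟨i, Finset.mem_coe.2 (Finset.mem_filter.2 ⟨hi, (wZ_eq_one_iff i).2 h6⟩), rfl⟩
      · rintro ⟨i, hi, rfl⟩
        obtain ⟨h6, h7⟩ := Finset.mem_filter.1 (Finset.mem_coe.1 hi)
        exact ⟨⟨i, h6, rfl⟩, (wZ_eq_one_iff i).1 h7⟩
    rw [e, Set.ncard_image_of_injective _ hinj, Set.ncard_coe_finset]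
    have h6 : ∑ i ∈ FZ T, wZ i - ∑ i ∈ FZ T, wZ i * (wZ i - 1) ≤ (((FZ T).filter (fun i => wZ i = 1)).card : ℝ) := by
      rw [← Finset.sum_sub_distrib, Finset.card_filter]
      push_cast
      refine Finset.sum_le_sum fun i _ => ?_
      rcases wZ_cases i with h7 | h7
      · rw [if_pos h7, h7]; norm_num
      · rw [if_neg (by linarith)]
        nlinarith
    linarith
  · rw [hset, Set.ncard_image_of_injective _ hinj, Set.ncard_coe_finset]
    have h6 : ∑ i ∈ FZ T, wZ i - 1 / 2 * ∑ i ∈ FZ T, wZ i * (wZ i - 1) ≤ ((FZ T).card : ℝ) := by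
      rw [Finset.mul_sum, ← Finset.sum_sub_distrib, Finset.card_eq_sum_ones]
      push_cast
      refine Finset.sum_le_sum fun i _ => ?_
      have h7 : wZ i = 1 ∨ wZ i = 2 ∨ 3 ≤ wZ i := by
        rcases wZ_cases i with h | h
        · exact Or.inl h
        · right
          unfold wZ at h ⊢
          have h8 : 2 ≤ PC.m i := by exact_mod_cast h
          rcases Nat.eq_or_lt_of_le h8 with h9 | h9
          · left; exact_mod_cast h9.symm
          · right; exact_mod_cast h9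
      rcases h7 with h7 | h7 | h7
      · rw [h7]; norm_num
      · rw [h7]; norm_num
      · nlinarith
    linarith

end Pool.Agent.H26.SZ
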