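import Mathlib
import Pool.Agent.H6.NiceFT

/-!
# MP_103a5c_SZ, block F3: autocorrelation of a nice function
-/

open MeasureTheory Set Filter Topology
open scoped Real ContDiff

namespace Pool.Agent.H26.SZ

open Pool.Agent.H6

/-- autocorrelation -/
noncomputable def ac (φ : ℝ → ℝ) (y : ℝ) : ℝ := ∫ x, φ x * φ (x + y)

lemma int_odd_zero {f : ℝ → ℝ} (h : ∀ x, f (-x) = -f x) : ∫ x, f x = 0 := by
  have h1 : ∫ x, f (-x) = ∫ x, f x := integral_neg_eq_self f volume
  simp_rw [h] at h1
  rw [integral_neg] at h1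
  linarith

lemma int_shift_cos {φ : ℝ → ℝ} (hi : Integrable φ) (he : ∀ x, φ (-x) = φ x) (u y : ℝ) :
    ∫ x, φ x * Real.cos (2 * π * (x + y) * u) = cosT φ u * Real.cos (2 * π * y * u) := by
  have hc : Integrable fun x => φ x * Real.cos (2 * π * x * u) := by
    apply hi.mul_bdd (c := 1) (by fun_prop)
    exact ae_of_all _ fun x => by rw [Real.norm_eq_abs]; exact Real.abs_cos_le_one _
  have hs : Integrable fun x => φ x * Real.sin (2 * π * x * u) := by
    apply hi.mul_bdd (c := 1) (by fun_prop)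
    exact ae_of_all _ fun x => by rw [Real.norm_eq_abs]; exact Real.abs_sin_le_one _
  have e : (fun x => φ x * Real.cos (2 * π * (x + y) * u)) = fun x =>
      φ x * Real.cos (2 * π * x * u) * Real.cos (2 * π * y * u) - φ x * Real.sin (2 * π * x * u) * Real.sin (2 * π * y * u) := by
    ext x
    rw [show 2 * π * (x + y) * u = 2 * π * x * u + 2 * π * y * u by ring, Real.cos_add]
    ring
  rw [e, integral_sub (hc.mul_const _) (hs.mul_const _), integral_mul_const, integral_mul_const]
  have h0 : ∫ x, φ x * Real.sin (2 * π * x * u) = 0 := by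
    apply int_odd_zero
    intro x
    rw [he, show 2 * π * (-x) * u = -(2 * π * x * u) by ring, Real.sin_neg]
    ring
  rw [h0, zero_mul, sub_zero]
  rfl

lemma conv_int {φ g : ℝ → ℝ} (hφc : Continuous φ) (hφi : Integrable φ) (he : ∀ x, φ (-x) = φ x) (hg : Continuous g)
    (hgi : Integrable g) (y : ℝ) : ∫ x, φ x * cosT g (x + y) = cosT (fun ξ => g ξ * cosT φ ξ) y := by
  have h1 : ∀ x, φ x * cosT g (x + y) = ∫ u, φ x * (g u * Real.cos (2 * π * u * (x + y))) := by
    intro x
    rw [integral_const_mul]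
    rfl
  simp_rw [h1]
  rw [integral_integral_swap]
  · unfold cosT
    congr 1
    ext u
    have e : ∀ x, φ x * (g u * Real.cos (2 * π * u * (x + y))) = g u * (φ x * Real.cos (2 * π * (x + y) * u)) := by
      intro x
      rw [show 2 * π * u * (x + y) = 2 * π * (x + y) * u by ring]
      ring
    simp_rw [e]
    rw [integral_const_mul, int_shift_cos hφi he]
    unfold cosT
    rw [show 2 * π * y * u = 2 * π * u * y by ring]
    ring
  · have h6 : Integrable (Function.uncurry fun (x u : ℝ) => φ x * g u) (volume.prod volume) :=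
      hφi.mul_prod hgi
    have hcont : Continuous (Function.uncurry fun (x u : ℝ) => φ x * (g u * Real.cos (2 * π * u * (x + y)))) := by
      unfold Function.uncurry
      fun_prop
    apply h6.mono hcont.aestronglyMeasurable
    apply ae_of_all
    rintro ⟨x, u⟩
    simp only [Function.uncurry]
    rw [← mul_assoc, norm_mul (φ x * g u)]
    apply mul_le_of_le_one_right (norm_nonneg _)
    rw [Real.norm_eq_abs]
    exact Real.abs_cos_le_one _

section
variable {φ : ℝ → ℝ} (h : Nice φ)
include h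

lemma ac_eq_cosT (y : ℝ) : ac φ y = cosT (fun ξ => cosT φ ξ * cosT φ ξ) y := by
  obtain ⟨s, hs0, hs⟩ := h.supp
  have hφ := (h.reg hs).test
  rw [← conv_int h.continuous h.integrable h.even hφ.cont hφ.integrable]
  unfold ac
  congr 1
  ext x
  rw [h.inv]

lemma ac_eq_conv : ac φ = MeasureTheory.convolution φ φ (ContinuousLinearMap.mul ℝ ℝ) volume := by
  ext y
  unfold ac MeasureTheory.convolution
  rw [← integral_neg_eq_self]
  congr 1
  ext x
  rw [h.even, ContinuousLinearMap.mul_apply', show -x + y = y - x by ring]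

omit h in
lemma ac_supp {s : ℝ} (hs : ∀ x, s ≤ |x| → φ x = 0) (y : ℝ) (hy : 2 * s ≤ |y|) : ac φ y = 0 := by
  unfold ac
  rw [show (0 : ℝ) = ∫ _x : ℝ, (0 : ℝ) by simp]
  congr 1
  ext x
  by_cases hx : s ≤ |x|
  · rw [hs x hx, zero_mul]
  · rw [hs (x + y), mul_zero]
    have h1 := abs_sub_abs_le_abs_sub y (-x)
    rw [abs_neg, show y - -x = x + y by ring] at h1
    push Not at hx
    linarith

lemma nice_ac : Nice (ac φ) := by
  obtain ⟨s, hs0, hs⟩ := h.supp
  refine ⟨?_, ?_, 2 * s, by linarith, ac_supp hs⟩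
  · rw [ac_eq_conv h]
    exact h.hasCompactSupport.contDiff_convolution_right _ h.continuous.locallyIntegrable h.smooth
  · intro y
    rw [ac_eq_cosT h, ac_eq_cosT h, cosT_neg]

lemma cosT_ac (ξ : ℝ) : cosT (ac φ) ξ = cosT φ ξ * cosT φ ξ := by
  obtain ⟨s, hs0, hs⟩ := h.supp
  have hφ := (h.reg hs).test
  have e : ac φ = cosT (fun ξ => cosT φ ξ * cosT φ ξ) := funext (ac_eq_cosT h)
  rw [e]
  obtain ⟨C, hC0, hC⟩ := hφ.decay
  have hb : ∀ u, |cosT φ u| ≤ C := fun u => (hC u).trans (div_le_self hC0 (one_le_pow₀ (by nlinarith [sq_nonneg u])))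
  have hint : Integrable (fun ξ => cosT φ ξ * cosT φ ξ) :=
    hφ.integrable.mul_bdd (c := C) hφ.cont.aestronglyMeasurable (ae_of_all _ fun u => by
      rw [Real.norm_eq_abs]; exact hb u)
  have := cosT_cosT (hφ.cont.mul hφ.cont) hint (fun u => by
    show cosT φ (-u) * cosT φ (-u) = cosT φ u * cosT φ u
    rw [cosT_neg]) (by
    have h2 : cosT (fun ξ => cosT φ ξ * cosT φ ξ) = ac φ := e.symm
    show Integrable (cosT (fun ξ => cosT φ ξ * cosT φ ξ))
    rw [h2]
    exact (nice_ac h).integrable) ξ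
  exact this

end

end Pool.Agent.H26.SZ
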