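import Mathlib
import Pool.Agent.H26.SZ.Jd

/-!
# MP_103a5c_SZ, block F3: continuity of the functional `J`
-/

open MeasureTheory Set Filter Topology
open scoped Real ContDiff Interval

namespace Pool.Agent.H26.SZ

/-- dominated convergence on an interval inside `[0, 1]` -/
lemma dct {F : ℕ → ℝ → ℝ} {f : ℝ → ℝ} {B a b : ℝ} (ha : 0 ≤ a) (hab : a ≤ b) (hb : b ≤ 1)
    (hF : ∀ n, ContinuousOn (F n) (Icc 0 1)) (hB : ∀ n, ∀ v ∈ Icc (0 : ℝ) 1, |F n v| ≤ B)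
    (ht : ∀ v ∈ Ioo (0 : ℝ) 1, Tendsto (fun n => F n v) atTop (𝓝 (f v))) :
    Tendsto (fun n => ∫ v in a..b, F n v) atTop (𝓝 (∫ v in a..b, f v)) := by
  have hsub : Ι a b ⊆ Icc (0 : ℝ) 1 := by
    rw [uIoc_of_le hab]
    intro x hx
    exact ⟨by linarith [hx.1], hx.2.trans hb⟩
  refine intervalIntegral.tendsto_integral_filter_of_dominated_convergence (fun _ => B) ?_ ?_ ?_ ?_
  · refine Eventually.of_forall fun n => ?_
    exact ((hF n).mono hsub).aestronglyMeasurable measurableSet_uIoc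
  · exact Eventually.of_forall fun n => ae_of_all _ fun x hx => by
      rw [Real.norm_eq_abs]; exact hB n x (hsub hx)
  · exact intervalIntegrable_const
  · have h1 : ∀ᵐ x : ℝ, x ≠ 1 := by
      rw [ae_iff]
      simp
    filter_upwards [h1] with x hx hx2
    apply ht
    rw [uIoc_of_le hab] at hx2
    exact ⟨by linarith [hx2.1], lt_of_le_of_ne (hx2.2.trans hb) hx⟩

/-- the functional with an independent derivative -/
noncomputable def JL (c₀ : ℝ) (α P D : ℝ → ℝ) : ℝ :=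
  c₀ ^ 2 - 2 * c₀ * (∫ v in (0 : ℝ)..1, v * α v) + (∫ v in (0 : ℝ)..1, v * α v ^ 2)
    - 2 * (c₀ * (P 0 / 2 + ∫ v in (0 : ℝ)..1, P v) + ∫ v in (0 : ℝ)..1, α v * CC P v)
    + (P 0 ^ 2 / 3 + P 0 * (∫ v in (0 : ℝ)..1, P v) + (∫ v in (0 : ℝ)..1, P v) ^ 2
      + 1 / 12 * ∫ v in (0 : ℝ)..1, D v ^ 2)

theorem JJ_tendsto {αn Pn : ℕ → ℝ → ℝ} {cn : ℕ → ℝ} {α P D : ℝ → ℝ} {c B : ℝ} (hB0 : 0 ≤ B)
    (hα : ∀ n, Continuous (αn n)) (hαb : ∀ n, ∀ v ∈ Icc (0 : ℝ) 1, |αn n v| ≤ B)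
    (hαt : ∀ v ∈ Ioo (0 : ℝ) 1, Tendsto (fun n => αn n v) atTop (𝓝 (α v)))
    (hP : ∀ n, ContDiff ℝ ∞ (Pn n)) (hPb : ∀ n, ∀ v ∈ Icc (0 : ℝ) 1, |Pn n v| ≤ B)
    (hP0 : Tendsto (fun n => Pn n 0) atTop (𝓝 (P 0)))
    (hPt : ∀ v ∈ Ioo (0 : ℝ) 1, Tendsto (fun n => Pn n v) atTop (𝓝 (P v)))
    (hDb : ∀ n, ∀ v ∈ Icc (0 : ℝ) 1, |deriv (Pn n) v| ≤ B)
    (hDt : ∀ v ∈ Ioo (0 : ℝ) 1, Tendsto (fun n => deriv (Pn n) v) atTop (𝓝 (D v)))
    (hc : Tendsto cn atTop (𝓝 c)) :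
    Tendsto (fun n => JJ (cn n) (αn n) (Pn n)) atTop (𝓝 (JL c α P D)) := by
  have hPc : ∀ n, Continuous (Pn n) := fun n => (hP n).continuous
  have h1 : Tendsto (fun n => ∫ v in (0 : ℝ)..1, v * αn n v) atTop (𝓝 (∫ v in (0 : ℝ)..1, v * α v)) := by
    refine dct (B := B) le_rfl zero_le_one le_rfl (fun n => by have := hα n; fun_prop) (fun n v hv => ?_) fun v hv => (hαt v hv).const_mul v
    rw [abs_mul, abs_of_nonneg hv.1]
    nlinarith [hαb n v hv, abs_nonneg (αn n v), hv.2, hv.1]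
  have h2 : Tendsto (fun n => ∫ v in (0 : ℝ)..1, v * αn n v ^ 2) atTop (𝓝 (∫ v in (0 : ℝ)..1, v * α v ^ 2)) := by
    refine dct (B := B ^ 2) le_rfl zero_le_one le_rfl (fun n => by have := hα n; fun_prop) (fun n v hv => ?_) fun v hv => ((hαt v hv).pow 2).const_mul v
    rw [abs_mul, abs_of_nonneg hv.1, abs_pow]
    have h3 := pow_le_pow_left₀ (abs_nonneg _) (hαb n v hv) 2
    have h4 : 0 ≤ |αn n v| ^ 2 := by positivity
    nlinarith [hv.2, hv.1]
  have h3 : ∀ a ∈ Icc (0 : ℝ) 1, Tendsto (fun n => ∫ v in a..1, Pn n v) atTop (𝓝 (∫ v in a..1, P v)) := fun a ha =>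
    dct (B := B) ha.1 ha.2 le_rfl (fun n => (hPc n).continuousOn) hPb hPt
  have h3' := h3 0 (by simp)
  have hSb : ∀ n, ∀ a ∈ Icc (0 : ℝ) 1, |∫ v in a..1, Pn n v| ≤ B := by
    intro n a ha
    have := intervalIntegral.norm_integral_le_of_norm_le_const (a := a) (b := 1) (f := Pn n) (C := B) (fun x hx => by
      rw [uIoc_of_le ha.2] at hx
      rw [Real.norm_eq_abs]
      exact hPb n x ⟨by linarith [hx.1, ha.1], hx.2⟩)
    rw [Real.norm_eq_abs] at this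
    refine this.trans ?_
    rw [abs_of_nonneg (by linarith [ha.2])]
    nlinarith [ha.1]
  have hCC : ∀ v ∈ Ioo (0 : ℝ) 1, Tendsto (fun n => CC (Pn n) v) atTop (𝓝 (CC P v)) := by
    intro v hv
    unfold CC
    exact (((hP0.mul_const _).add (h3'.mul_const _)).sub ((hPt v hv).div_const 2)).sub (h3 v ⟨hv.1.le, hv.2.le⟩)
  have hCb : ∀ n, ∀ v ∈ Icc (0 : ℝ) 1, |CC (Pn n) v| ≤ 4 * B := by
    intro n v hv
    unfold CC
    have a1 := hPb n 0 (by simp)
    have a2 := hSb n 0 (by simp)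
    have a3 := hPb n v hv
    have a4 := hSb n v hv
    have a5 : |1 / 2 - v - v ^ 2 / 2| ≤ 1 := by rw [abs_le]; constructor <;> nlinarith [hv.1, hv.2]
    have a6 : |1 - v| ≤ 1 := by rw [abs_le]; constructor <;> linarith [hv.1, hv.2]
    have b1 : |Pn n 0 * (1 / 2 - v - v ^ 2 / 2)| ≤ B := by
      rw [abs_mul]
      exact (mul_le_mul a1 a5 (abs_nonneg _) hB0).trans (by linarith)
    have b2 : |(∫ u in (0 : ℝ)..1, Pn n u) * (1 - v)| ≤ B := by
      rw [abs_mul]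
      exact (mul_le_mul a2 a6 (abs_nonneg _) hB0).trans (by linarith)
    rw [abs_le] at *
    constructor <;> linarith [a3.1, a3.2, a4.1, a4.2, b1.1, b1.2, b2.1, b2.2]
  have hCcont : ∀ n, Continuous (CC (Pn n)) := by
    intro n
    have h5 : Continuous fun v => ∫ u in v..1, Pn n u := by
      have h6 : (fun v => ∫ u in v..1, Pn n u) = fun v => -∫ u in (1 : ℝ)..v, Pn n u := by
        ext v; rw [intervalIntegral.integral_symm]
      rw [h6]
      exact (intervalIntegral.continuous_primitive (fun a b => (hPc n).intervalIntegrable a b) 1).neg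
    have h7 := hPc n
    unfold CC
    fun_prop
  have h4 : Tendsto (fun n => ∫ v in (0 : ℝ)..1, αn n v * CC (Pn n) v) atTop (𝓝 (∫ v in (0 : ℝ)..1, α v * CC P v)) := by
    refine dct (B := B * (4 * B)) le_rfl zero_le_one le_rfl (fun n => ((hα n).mul (hCcont n)).continuousOn) (fun n v hv => ?_)
      fun v hv => (hαt v hv).mul (hCC v hv)
    rw [abs_mul]
    exact mul_le_mul (hαb n v hv) (hCb n v hv) (abs_nonneg _) hB0
  have h5 : Tendsto (fun n => ∫ v in (0 : ℝ)..1, deriv (Pn n) v ^ 2) atTop (𝓝 (∫ v in (0 : ℝ)..1, D v ^ 2)) := by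
    refine dct (B := B ^ 2) le_rfl zero_le_one le_rfl (fun n => ?_) (fun n v hv => ?_) fun v hv => (hDt v hv).pow 2
    · have : Continuous (deriv (Pn n)) := (hP n).continuous_deriv (by simp)
      fun_prop
    · rw [abs_pow]
      exact pow_le_pow_left₀ (abs_nonneg _) (hDb n v hv) 2
  unfold JJ JL
  exact ((((hc.pow 2).sub ((hc.const_mul 2).mul h1)).add h2).sub
    (((hc.mul ((hP0.div_const 2).add h3')).add h4).const_mul 2)).add
    (((((hP0.pow 2).div_const 3).add (hP0.mul h3')).add (h3'.pow 2)).add (h5.const_mul (1 / 12)))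

end Pool.Agent.H26.SZ
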