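import Mathlib
import Pool.Agent.H26.SZ.Fe
import Pool.Agent.H26.SZ.Ff

/-!
# MP_103a5c_SZ, block F3: explicit choice of the prime kernel and of the mollifier
-/

open MeasureTheory Set Filter Topology
open scoped Real ContDiff Interval

namespace Pool.Agent.H26.SZ

open Pool.Agent.H6

/-- kernel polynomial -/
noncomputable def q0 (x : ℝ) : ℝ := 27 / 40 - 3 / 8 * x ^ 2
/-- its truncation -/
noncomputable def qI (x : ℝ) : ℝ := if |x| < 1 / 2 then q0 x else 0
/-- autocorrelation polynomial -/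
noncomputable def Ap (v : ℝ) : ℝ :=
  10629 / 25600 - 8649 / 25600 * v - 309 / 1280 * v ^ 2 + 27 / 160 * v ^ 3 - 3 / 640 * v ^ 5

lemma int_q0 {v : ℝ} (hv0 : 0 ≤ v) (hv1 : v < 1) : ∫ x, qI x * qI (x + v) = Ap v := by
  have e : (fun x => qI x * qI (x + v)) = indicator (Ioo (-(1 / 2)) (1 / 2 - v)) (fun x => q0 x * q0 (x + v)) := by
    ext x
    by_cases hx : x ∈ Ioo (-(1 / 2) : ℝ) (1 / 2 - v)
    · rw [indicator_of_mem hx]
      unfold qI
      rw [if_pos (by rw [abs_lt]; constructor <;> linarith [hx.1, hx.2]),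
        if_pos (by rw [abs_lt]; constructor <;> linarith [hx.1, hx.2])]
    · rw [indicator_of_notMem hx]
      unfold qI
      by_cases h1 : |x| < 1 / 2
      · rw [if_neg (c := |x + v| < 1 / 2), mul_zero]
        intro h2
        rw [abs_lt] at h1 h2
        exact hx ⟨h1.1, by linarith [h2.2]⟩
      · rw [if_neg h1, zero_mul]
  rw [e, integral_indicator measurableSet_Ioo, ← integral_Ioc_eq_integral_Ioo,
    ← intervalIntegral.integral_of_le (by linarith)]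
  have hd : ∀ x ∈ uIcc (-(1 / 2) : ℝ) (1 / 2 - v), HasDerivAt (fun x : ℝ => (27 / 40) ^ 2 * x - 2 / 3 * (27 / 40) * (3 / 8) * x ^ 3
      + (3 / 8) ^ 2 / 5 * x ^ 5 - (27 / 40) * (3 / 8) * v * x ^ 2 + (3 / 8) ^ 2 * v / 2 * x ^ 4 - (27 / 40) * (3 / 8) * v ^ 2 * x
      + (3 / 8) ^ 2 * v ^ 2 / 3 * x ^ 3) (q0 x * q0 (x + v)) x := by
    intro x _
    have h1 := hasDerivAt_id x
    have := ((((((h1.const_mul ((27 / 40 : ℝ) ^ 2)).sub ((h1.pow 3).const_mul (2 / 3 * (27 / 40) * (3 / 8) : ℝ))).add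
      ((h1.pow 5).const_mul ((3 / 8) ^ 2 / 5 : ℝ))).sub ((h1.pow 2).const_mul ((27 / 40) * (3 / 8) * v))).add
      ((h1.pow 4).const_mul ((3 / 8) ^ 2 * v / 2))).sub (h1.const_mul ((27 / 40) * (3 / 8) * v ^ 2))).add
      ((h1.pow 3).const_mul ((3 / 8) ^ 2 * v ^ 2 / 3))
    refine (this.congr_deriv ?_)
    unfold q0
    simp only [id]
    push_cast
    ring
  rw [intervalIntegral.integral_eq_sub_of_hasDerivAt hd (Continuous.intervalIntegrable (by unfold q0; fun_prop) _ _)]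
  unfold Ap
  ring

lemma int_q0_one : ∫ x, qI x = 103 / 160 := by
  have e : (fun x => qI x) = indicator (Ioo (-(1 / 2)) (1 / 2)) (fun x => q0 x) := by
    ext x
    by_cases hx : x ∈ Ioo (-(1 / 2) : ℝ) (1 / 2)
    · rw [indicator_of_mem hx]
      unfold qI
      rw [if_pos (by rw [abs_lt]; exact hx)]
    · rw [indicator_of_notMem hx]
      unfold qI
      rw [if_neg]
      intro h
      exact hx (abs_lt.1 h)
  rw [e, integral_indicator measurableSet_Ioo, ← integral_Ioc_eq_integral_Ioo,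
    ← intervalIntegral.integral_of_le (by norm_num)]
  have hd : ∀ x ∈ uIcc (-(1 / 2) : ℝ) (1 / 2), HasDerivAt (fun x : ℝ => 27 / 40 * x - 1 / 8 * x ^ 3) (q0 x) x := by
    intro x _
    have h1 := hasDerivAt_id x
    refine ((h1.const_mul (27 / 40 : ℝ)).sub ((h1.pow 3).const_mul (1 / 8 : ℝ))).congr_deriv ?_
    unfold q0
    simp only [id]
    push_cast
    ring
  rw [intervalIntegral.integral_eq_sub_of_hasDerivAt hd (Continuous.intervalIntegrable (by unfold q0; fun_prop) _ _)]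
  norm_num

/-- smooth plateaus `1` on `|x| ≤ 1/2 - 2η`, `0` on `|x| ≥ 1/2 - η` -/
lemma exists_rho : ∃ ρ : ℕ → ℝ → ℝ, ∀ n, Nice (ρ n) ∧ (∀ x, 1 / 2 - 1 / (n + 8 : ℝ) ≤ |x| → ρ n x = 0) ∧
    (∀ x, |x| ≤ 1 / 2 - 2 / (n + 8 : ℝ) → ρ n x = 1) ∧ (∀ x, 0 ≤ ρ n x) ∧ (∀ x, ρ n x ≤ 1) := by
  have : ∀ n : ℕ, ∃ ρ : ℝ → ℝ, Nice ρ ∧ (∀ x, 1 / 2 - 1 / (n + 8 : ℝ) ≤ |x| → ρ x = 0) ∧
    (∀ x, |x| ≤ 1 / 2 - 2 / (n + 8 : ℝ) → ρ x = 1) ∧ (∀ x, 0 ≤ ρ x) ∧ (∀ x, ρ x ≤ 1) := by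
    intro n
    have hn : (8 : ℝ) ≤ n + 8 := by have : (0 : ℝ) ≤ n := n.cast_nonneg
                                    linarith
    have h1 : 2 / (n + 8 : ℝ) ≤ 1 / 4 := by rw [div_le_iff₀ (by linarith)]; linarith
    have h2 : 1 / (n + 8 : ℝ) < 2 / (n + 8 : ℝ) := by
      apply div_lt_div_of_pos_right (by norm_num) (by linarith)
    exact exists_nice_plateau (by linarith) (by linarith)
  choose ρ hρ using this
  exact ⟨ρ, hρ⟩

lemma tendsto_eta (c : ℝ) : Tendsto (fun n : ℕ => 1 / 2 - c / (n + 8 : ℝ)) atTop (𝓝 (1 / 2)) := by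
  have h : Tendsto (fun n : ℕ => (n + 8 : ℝ)) atTop atTop :=
    tendsto_atTop_add_const_right _ _ tendsto_natCast_atTop_atTop
  simpa using (tendsto_const_nhds (x := (1 / 2 : ℝ))).sub (tendsto_const_nhds.div_atTop h)

section
variable {ρ : ℕ → ℝ → ℝ} (hρ : ∀ n, Nice (ρ n) ∧ (∀ x, 1 / 2 - 1 / (n + 8 : ℝ) ≤ |x| → ρ n x = 0) ∧
    (∀ x, |x| ≤ 1 / 2 - 2 / (n + 8 : ℝ) → ρ n x = 1) ∧ (∀ x, 0 ≤ ρ n x) ∧ (∀ x, ρ n x ≤ 1))
include hρ

lemma rho_zero (n : ℕ) {x : ℝ} (hx : 1 / 2 ≤ |x|) : ρ n x = 0 := by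
  apply (hρ n).2.1
  have hn : (0 : ℝ) ≤ 1 / (n + 8 : ℝ) := by positivity
  linarith

lemma rho_tendsto {x : ℝ} (hx : |x| < 1 / 2) : Tendsto (fun n => ρ n x) atTop (𝓝 1) := by
  apply tendsto_const_nhds.congr'
  filter_upwards [(tendsto_eta 2).eventually (lt_mem_nhds hx)] with n hn
  exact ((hρ n).2.2.1 x hn.le).symm

lemma nice_phi (n : ℕ) : Nice (fun x => ρ n x * q0 x) :=
  (hρ n).1.mul (by unfold q0; fun_prop) (fun x => by unfold q0; ring)

lemma phi_bound (n : ℕ) (x : ℝ) : |ρ n x * q0 x| ≤ indicator (Icc (-(1 / 2) : ℝ) (1 / 2)) (fun _ => (1 : ℝ)) x := by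
  by_cases hx : 1 / 2 ≤ |x|
  · rw [rho_zero hρ n hx, zero_mul, abs_zero]
    exact indicator_nonneg (fun _ _ => zero_le_one) _
  · push Not at hx
    have hx2 := abs_lt.1 hx
    rw [indicator_of_mem (show x ∈ Icc (-(1 / 2) : ℝ) (1 / 2) from ⟨hx2.1.le, hx2.2.le⟩), abs_mul,
      abs_of_nonneg ((hρ n).2.2.2.1 x)]
    have h1 : |q0 x| ≤ 1 := by
      unfold q0
      rw [abs_le]
      constructor <;> nlinarith [sq_abs x, abs_nonneg x]
    exact (mul_le_mul ((hρ n).2.2.2.2 x) h1 (abs_nonneg _) zero_le_one).trans (by norm_num)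

lemma phi_tendsto (x : ℝ) : Tendsto (fun n => ρ n x * q0 x) atTop (𝓝 (qI x)) := by
  unfold qI
  by_cases hx : |x| < 1 / 2
  · rw [if_pos hx]
    simpa using (rho_tendsto hρ hx).mul_const (q0 x)
  · rw [if_neg hx]
    apply tendsto_const_nhds.congr
    intro n
    rw [rho_zero hρ n (not_lt.1 hx), zero_mul]

lemma ac_tendsto {v : ℝ} (hv0 : 0 ≤ v) (hv1 : v < 1) : Tendsto (fun n => ac (fun x => ρ n x * q0 x) v) atTop (𝓝 (Ap v)) := by
  rw [← int_q0 hv0 hv1]
  unfold ac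
  refine tendsto_integral_of_dominated_convergence (indicator (Icc (-(1 / 2) : ℝ) (1 / 2)) (fun _ => (1 : ℝ))) ?_ ?_ ?_ ?_
  · intro n
    have := (nice_phi hρ n).continuous
    exact (this.mul (this.comp (continuous_id.add continuous_const))).aestronglyMeasurable
  · rw [integrable_indicator_iff measurableSet_Icc]
    exact continuous_const.integrableOn_Icc
  · intro n
    refine ae_of_all _ fun x => ?_
    rw [Real.norm_eq_abs, abs_mul]
    have h1 := phi_bound hρ n x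
    have h2 : |ρ n (x + v) * q0 (x + v)| ≤ 1 := by
      refine (phi_bound hρ n (x + v)).trans ?_
      exact indicator_le_self' (fun _ _ => zero_le_one) _
    calc |ρ n x * q0 x| * |ρ n (x + v) * q0 (x + v)| ≤ |ρ n x * q0 x| * 1 := mul_le_mul_of_nonneg_left h2 (abs_nonneg _)
      _ ≤ _ := by rw [mul_one]; exact h1
  · exact ae_of_all _ fun x => (phi_tendsto hρ x).mul (phi_tendsto hρ (x + v))

lemma ac_bound (n : ℕ) (v : ℝ) : |ac (fun x => ρ n x * q0 x) v| ≤ 1 := by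
  unfold ac
  have h3 : ∫ x, indicator (Icc (-(1 / 2) : ℝ) (1 / 2)) (fun _ => (1 : ℝ)) x = 1 := by
    rw [integral_indicator measurableSet_Icc]
    simp
    norm_num
  rw [← h3, ← Real.norm_eq_abs]
  refine norm_integral_le_of_norm_le ?_ (ae_of_all _ fun x => ?_)
  · rw [integrable_indicator_iff measurableSet_Icc]
    exact continuous_const.integrableOn_Icc
  · rw [Real.norm_eq_abs, abs_mul]
    have h1 := phi_bound hρ n x
    have h2 : |ρ n (x + v) * q0 (x + v)| ≤ 1 := by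
      refine (phi_bound hρ n (x + v)).trans ?_
      exact indicator_le_self' (fun _ _ => zero_le_one) _
    calc |ρ n x * q0 x| * |ρ n (x + v) * q0 (x + v)| ≤ |ρ n x * q0 x| * 1 := mul_le_mul_of_nonneg_left h2 (abs_nonneg _)
      _ ≤ _ := by rw [mul_one]; exact h1

lemma cosT_phi_tendsto : Tendsto (fun n => cosT (fun x => ρ n x * q0 x) 0) atTop (𝓝 (103 / 160)) := by
  rw [← int_q0_one]
  have e : ∀ n, cosT (fun x => ρ n x * q0 x) 0 = ∫ x, ρ n x * q0 x := by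
    intro n; unfold cosT; simp
  simp_rw [e]
  refine tendsto_integral_of_dominated_convergence (indicator (Icc (-(1 / 2) : ℝ) (1 / 2)) (fun _ => (1 : ℝ))) ?_ ?_ ?_ ?_
  · intro n
    exact (nice_phi hρ n).continuous.aestronglyMeasurable
  · rw [integrable_indicator_iff measurableSet_Icc]
    exact continuous_const.integrableOn_Icc
  · intro n
    exact ae_of_all _ fun x => phi_bound hρ n x
  · exact ae_of_all _ fun x => phi_tendsto hρ x

end

end Pool.Agent.H26.SZ
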