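import Mathlib
import Pool.Agent.H26.SZ.Fg

/-!
# MP_103a5c_SZ, block F3: the value of the functional at the explicit choice
-/

open MeasureTheory Set Filter Topology
open scoped Real ContDiff Interval

namespace Pool.Agent.H26.SZ

open Pool.Agent.H6

lemma int_poly (c : List ℝ) (a b : ℝ) : ∫ x in a..b, ∑ i ∈ Finset.range c.length, c.getD i 0 * x ^ i =
    ∑ i ∈ Finset.range c.length, c.getD i 0 * ((b ^ (i + 1) - a ^ (i + 1)) / (i + 1)) := by
  rw [intervalIntegral.integral_finsetSum]
  · refine Finset.sum_congr rfl fun i _ => ?_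
    rw [intervalIntegral.integral_const_mul, integral_pow]
  · intro i _
    exact Continuous.intervalIntegrable (by fun_prop) _ _

/-- the mollifier: limit function -/
noncomputable def PI (u : ℝ) : ℝ := if u < 1 / 2 then 51 / 100 + u / 10 - 56 / 25 * u ^ 2 else 0
/-- its derivative -/
noncomputable def DI (u : ℝ) : ℝ := if u < 1 / 2 then 1 / 10 - 112 / 25 * u else 0

lemma int_trunc (p : ℝ → ℝ) (hp : Continuous p) {a : ℝ} (ha : a ≤ 1 / 2) :
    ∫ x in a..1, (if x < 1 / 2 then p x else 0) = ∫ x in a..(1 / 2), p x := by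
  have e1 : ∫ x in a..(1 / 2), (if x < 1 / 2 then p x else 0) = ∫ x in a..(1 / 2), p x := by
    rw [intervalIntegral.integral_of_le ha, intervalIntegral.integral_of_le ha, integral_Ioc_eq_integral_Ioo,
      integral_Ioc_eq_integral_Ioo]
    exact setIntegral_congr_fun measurableSet_Ioo fun x hx => if_pos hx.2
  have e2 : ∫ x in (1 / 2 : ℝ)..1, (if x < 1 / 2 then p x else 0) = 0 := by
    rw [intervalIntegral.integral_of_le (by norm_num)]
    rw [setIntegral_congr_fun (g := fun _ => (0 : ℝ)) measurableSet_Ioc fun x hx => if_neg (not_lt.2 hx.1.le)]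
    simp
  have hi : ∀ x y : ℝ, IntervalIntegrable (fun x => if x < 1 / 2 then p x else 0) volume x y := by
    intro x y
    have h1 : IntervalIntegrable ((Iio (1 / 2 : ℝ)).indicator p) volume x y := by
      rw [intervalIntegrable_iff]
      exact (intervalIntegrable_iff.1 (hp.intervalIntegrable x y)).indicator measurableSet_Iio
    exact h1
  rw [← intervalIntegral.integral_add_adjacent_intervals (hi a (1 / 2)) (hi (1 / 2) 1), e1, e2, add_zero]

lemma int_PI {a : ℝ} (ha : a ≤ 1 / 2) : ∫ x in a..1, PI x = 209 / 1200 - (51 / 100 * a + a ^ 2 / 20 - 56 / 75 * a ^ 3) := by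
  unfold PI
  rw [int_trunc (fun u => 51 / 100 + u / 10 - 56 / 25 * u ^ 2) (by fun_prop) ha]
  have hd : ∀ x ∈ uIcc a (1 / 2 : ℝ), HasDerivAt (fun x : ℝ => 51 / 100 * x + 1 / 20 * x ^ 2 - 56 / 75 * x ^ 3)
      (51 / 100 + x / 10 - 56 / 25 * x ^ 2) x := by
    intro x _
    have h1 := hasDerivAt_id x
    refine (((h1.const_mul (51 / 100 : ℝ)).add ((h1.pow 2).const_mul (1 / 20 : ℝ))).sub
      ((h1.pow 3).const_mul (56 / 75 : ℝ))).congr_deriv ?_
    simp only [id]
    push_cast
    ring
  rw [intervalIntegral.integral_eq_sub_of_hasDerivAt hd (Continuous.intervalIntegrable (by fun_prop) _ _)]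
  ring

lemma int_PI' {a : ℝ} (ha : 1 / 2 ≤ a) (ha1 : a ≤ 1) : ∫ x in a..1, PI x = 0 := by
  unfold PI
  rw [intervalIntegral.integral_of_le ha1]
  rw [setIntegral_congr_fun (g := fun _ => (0 : ℝ)) measurableSet_Ioc fun x hx => if_neg (not_lt.2 (ha.trans hx.1.le))]
  simp

/-- limit of `α` -/
noncomputable def al (v : ℝ) : ℝ := -2 * Ap v

lemma val_I1 : ∫ v in (0 : ℝ)..1, v * al v = -24267 / 179200 := by
  have h := int_poly [0, -10629/12800, 8649/12800, 309/640, -27/80, 0, 3/320] 0 1
  rw [← show (fun v : ℝ => v * al v) = fun v => ∑ i ∈ Finset.range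
      ([0, -10629/12800, 8649/12800, 309/640, -27/80, 0, 3/320] : List ℝ).length,
      ([0, -10629/12800, 8649/12800, 309/640, -27/80, 0, 3/320] : List ℝ).getD i 0 * v ^ i by
    ext v
    simp [Finset.sum_range_succ, al, Ap]
    ring] at h
  rw [h]
  simp [Finset.sum_range_succ]
  norm_num

lemma val_I2 : ∫ v in (0 : ℝ)..1, v * al v ^ 2 = 262613629 / 4587520000 := by
  have h := int_poly [0, 112975641/163840000, -91930221/81920000, -56569239/163840000, 993681/819200, -456687/2048000,
    -699327/2048000, 259227/2048000, 927/102400, -81/12800, 0, 9/102400] 0 1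
  rw [← show (fun v : ℝ => v * al v ^ 2) = fun v => ∑ i ∈ Finset.range
      ([0, 112975641/163840000, -91930221/81920000, -56569239/163840000, 993681/819200, -456687/2048000,
    -699327/2048000, 259227/2048000, 927/102400, -81/12800, 0, 9/102400] : List ℝ).length,
      ([0, 112975641/163840000, -91930221/81920000, -56569239/163840000, 993681/819200, -456687/2048000,
    -699327/2048000, 259227/2048000, 927/102400, -81/12800, 0, 9/102400] : List ℝ).getD i 0 * v ^ i by
    ext v
    simp [Finset.sum_range_succ, al, Ap]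
    ring] at h
  rw [h]
  simp [Finset.sum_range_succ]
  norm_num

lemma val_I5 : ∫ v in (0 : ℝ)..1, DI v ^ 2 = 10939 / 15000 := by
  have e : (fun v => DI v ^ 2) = fun v => if v < 1 / 2 then (1 / 10 - 112 / 25 * v) ^ 2 else 0 := by
    ext v
    unfold DI
    split_ifs <;> simp
  rw [e, int_trunc (fun v => (1 / 10 - 112 / 25 * v) ^ 2) (by fun_prop) (by norm_num)]
  have h := int_poly [1/100, -112/125, 12544/625] 0 (1 / 2)
  rw [← show (fun v : ℝ => (1 / 10 - 112 / 25 * v) ^ 2) = fun v => ∑ i ∈ Finset.range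
      ([1/100, -112/125, 12544/625] : List ℝ).length,
      ([1/100, -112/125, 12544/625] : List ℝ).getD i 0 * v ^ i by
    ext v
    simp [Finset.sum_range_succ]
    ring] at h
  rw [h]
  simp [Finset.sum_range_succ]
  norm_num

lemma PI_zero : PI 0 = 51 / 100 := by
  unfold PI
  norm_num

lemma CC_PI {v : ℝ} (hv : v < 1 / 2) : CC PI v = -269/1200 * v + 183/200 * v ^ 2 - 56/75 * v ^ 3 := by
  unfold CC
  rw [int_PI hv.le, int_PI (by norm_num), PI_zero]
  unfold PI
  rw [if_pos hv]
  ring

lemma CC_PI' {v : ℝ} (hv : 1 / 2 ≤ v) (hv1 : v ≤ 1) : CC PI v = 103/240 - 821/1200 * v - 51/200 * v ^ 2 := by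
  unfold CC
  rw [int_PI' hv hv1, int_PI (by norm_num), PI_zero]
  unfold PI
  rw [if_neg (not_lt.2 hv)]
  ring

lemma val_I4 : ∫ v in (0 : ℝ)..1, al v * CC PI v = 325099079/206438400000 + 188146453/13762560000 := by
  have e1 : ∫ v in (0 : ℝ)..(1 / 2), al v * CC PI v = 325099079/206438400000 := by
    have h := int_poly [0, 953067/5120000, -4665741/5120000, 2892961/2560000, 8259/640000, -10709/16000, 31987/128000,
      549/64000, -7/1000] 0 (1 / 2)
    have e : ∫ v in (0 : ℝ)..(1 / 2), al v * CC PI v = ∫ v in (0 : ℝ)..(1 / 2), ∑ i ∈ Finset.range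
      ([0, 953067/5120000, -4665741/5120000, 2892961/2560000, 8259/640000, -10709/16000, 31987/128000,
      549/64000, -7/1000] : List ℝ).length,
      ([0, 953067/5120000, -4665741/5120000, 2892961/2560000, 8259/640000, -10709/16000, 31987/128000,
      549/64000, -7/1000] : List ℝ).getD i 0 * v ^ i := by
      rw [intervalIntegral.integral_of_le (by norm_num), intervalIntegral.integral_of_le (by norm_num),
        integral_Ioc_eq_integral_Ioo, integral_Ioc_eq_integral_Ioo]
      refine setIntegral_congr_fun measurableSet_Ioo fun v hv => ?_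
      rw [CC_PI hv.2]
      simp [Finset.sum_range_succ, al, Ap]
      ring
    rw [e, h]
    simp [Finset.sum_range_succ]
    norm_num
  have e2 : ∫ v in (1 / 2 : ℝ)..1, al v * CC PI v = 188146453/13762560000 := by
    have h := int_poly [-364929/1024000, 1098387/1280000, -44377/1024000, -1657529/2560000, 13797/128000, 11531/128000,
      -821/128000, -153/64000] (1 / 2) 1
    have e : ∫ v in (1 / 2 : ℝ)..1, al v * CC PI v = ∫ v in (1 / 2 : ℝ)..1, ∑ i ∈ Finset.range
      ([-364929/1024000, 1098387/1280000, -44377/1024000, -1657529/2560000, 13797/128000, 11531/128000,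
      -821/128000, -153/64000] : List ℝ).length,
      ([-364929/1024000, 1098387/1280000, -44377/1024000, -1657529/2560000, 13797/128000, 11531/128000,
      -821/128000, -153/64000] : List ℝ).getD i 0 * v ^ i := by
      rw [intervalIntegral.integral_of_le (by norm_num), intervalIntegral.integral_of_le (by norm_num)]
      refine setIntegral_congr_fun measurableSet_Ioc fun v hv => ?_
      rw [CC_PI' hv.1.le hv.2]
      simp [Finset.sum_range_succ, al, Ap]
      ring
    rw [e, h]
    simp [Finset.sum_range_succ]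
    norm_num
  have hi1 : IntervalIntegrable (fun v => al v * CC PI v) volume 0 (1 / 2) := by
    have h1 : IntervalIntegrable (fun v => al v * (-269/1200 * v + 183/200 * v ^ 2 - 56/75 * v ^ 3)) volume 0 (1 / 2) :=
      Continuous.intervalIntegrable (by unfold al Ap; fun_prop) _ _
    rw [intervalIntegrable_iff, uIoc_of_le (by norm_num), integrableOn_Ioc_iff_integrableOn_Ioo] at h1 ⊢
    refine h1.congr_fun (fun v hv => ?_) measurableSet_Ioo
    simp only
    rw [CC_PI hv.2]
  have hi2 : IntervalIntegrable (fun v => al v * CC PI v) volume (1 / 2) 1 := by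
    have h1 : IntervalIntegrable (fun v => al v * (103/240 - 821/1200 * v - 51/200 * v ^ 2)) volume (1 / 2) 1 :=
      Continuous.intervalIntegrable (by unfold al Ap; fun_prop) _ _
    rw [intervalIntegrable_iff, uIoc_of_le (by norm_num)] at h1 ⊢
    refine h1.congr_fun (fun v hv => ?_) measurableSet_Ioc
    simp only
    rw [CC_PI' hv.1.le hv.2]
  rw [← intervalIntegral.integral_add_adjacent_intervals hi1 hi2, e1, e2]

theorem JL_value : JL (15011 / 25600) al PI DI = 30214637521/103219200000 := by
  unfold JL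
  rw [val_I1, val_I2, val_I4, val_I5, int_PI (by norm_num), PI_zero]
  norm_num

end Pool.Agent.H26.SZ
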