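import Mathlib
import Pool.Agent.H26.SZ.Fh

/-!
# MP_103a5c_SZ, block F3: existence of the prime kernel and of the mollifier
-/

open MeasureTheory Set Filter Topology
open scoped Real ContDiff Interval

namespace Pool.Agent.H26.SZ

open Pool.Agent.H6

/-- primitive with value `0` beyond the support -/
noncomputable def Rn (ρ : ℝ → ℝ) (u : ℝ) : ℝ := ∫ v in (1 : ℝ)..u, (1 / 10 - 112 / 25 * v) * ρ v

/-- approximation of the mollifier -/
noncomputable def Pn (ρ : ℝ → ℝ) (u : ℝ) : ℝ := Real.smoothTransition (u + 2) * Rn ρ u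

lemma hasDerivAt_Rn {ρ : ℝ → ℝ} (hρ : Continuous ρ) (u : ℝ) : HasDerivAt (Rn ρ) ((1 / 10 - 112 / 25 * u) * ρ u) u := by
  have hc : Continuous fun v => (1 / 10 - 112 / 25 * v) * ρ v := by fun_prop
  exact intervalIntegral.integral_hasDerivAt_right (hc.intervalIntegrable _ _) (hc.stronglyMeasurableAtFilter _ _) hc.continuousAt

lemma contDiff_Rn {ρ : ℝ → ℝ} (hρ : ContDiff ℝ ∞ ρ) : ContDiff ℝ ∞ (Rn ρ) := by
  rw [contDiff_infty_iff_deriv]
  refine ⟨fun u => (hasDerivAt_Rn hρ.continuous u).differentiableAt, ?_⟩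
  have : deriv (Rn ρ) = fun u => (1 / 10 - 112 / 25 * u) * ρ u := funext fun u => (hasDerivAt_Rn hρ.continuous u).deriv
  rw [this]
  fun_prop

lemma Rn_zero {ρ : ℝ → ℝ} {b : ℝ} (_hb0 : 0 ≤ b) (hb : b ≤ 1) (h : ∀ x, b ≤ |x| → ρ x = 0) {u : ℝ} (hu : b ≤ u) : Rn ρ u = 0 := by
  unfold Rn
  rw [intervalIntegral.integral_zero_ae]
  refine ae_of_all _ fun v hv => ?_
  rw [h v, mul_zero]
  have h1 : min 1 u < v := hv.1
  have h2 : b ≤ min 1 u := le_min hb hu
  exact (h2.trans h1.le).trans (le_abs_self _)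

lemma contDiff_Pn {ρ : ℝ → ℝ} (hρ : ContDiff ℝ ∞ ρ) : ContDiff ℝ ∞ (Pn ρ) := by
  unfold Pn
  exact (Real.smoothTransition.contDiff.comp (contDiff_id.add contDiff_const)).mul (contDiff_Rn hρ)

lemma Pn_eq {ρ : ℝ → ℝ} {u : ℝ} (hu : -1 ≤ u) : Pn ρ u = Rn ρ u := by
  unfold Pn
  rw [Real.smoothTransition.one_of_one_le (by linarith), one_mul]

lemma deriv_Pn {ρ : ℝ → ℝ} (hρ : Continuous ρ) {u : ℝ} (hu : 0 ≤ u) : deriv (Pn ρ) u = (1 / 10 - 112 / 25 * u) * ρ u := by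
  rw [← (hasDerivAt_Rn hρ u).deriv]
  apply Filter.EventuallyEq.deriv_eq
  filter_upwards [Ioi_mem_nhds (show (-1 : ℝ) < u by linarith)] with v hv
  exact Pn_eq (le_of_lt hv)

lemma Pn_zero {ρ : ℝ → ℝ} {b : ℝ} (hb0 : 0 ≤ b) (hb : b ≤ 1) (h : ∀ x, b ≤ |x| → ρ x = 0) {u : ℝ} (hu : b ≤ u) : Pn ρ u = 0 := by
  unfold Pn
  rw [Rn_zero hb0 hb h hu, mul_zero]

lemma Pn_cpt {ρ : ℝ → ℝ} {b : ℝ} (hb0 : 0 ≤ b) (hb : b ≤ 1) (h : ∀ x, b ≤ |x| → ρ x = 0) : HasCompactSupport (Pn ρ) := by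
  apply HasCompactSupport.of_support_subset_isCompact (isCompact_Icc (a := -2) (b := 1))
  intro u hu
  rw [Function.mem_support] at hu
  by_contra h1
  apply hu
  by_cases h2 : u < -2
  · unfold Pn
    rw [Real.smoothTransition.zero_of_nonpos (by linarith), zero_mul]
  · push Not at h2
    apply Pn_zero hb0 hb h
    by_contra h3
    push Not at h3
    exact h1 ⟨h2, by linarith⟩

section
variable {ρ : ℕ → ℝ → ℝ} (hρ : ∀ n, Nice (ρ n) ∧ (∀ x, 1 / 2 - 1 / (n + 8 : ℝ) ≤ |x| → ρ n x = 0) ∧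
    (∀ x, |x| ≤ 1 / 2 - 2 / (n + 8 : ℝ) → ρ n x = 1) ∧ (∀ x, 0 ≤ ρ n x) ∧ (∀ x, ρ n x ≤ 1))
include hρ

lemma D_bound (n : ℕ) {v : ℝ} (hv : v ∈ Icc (0 : ℝ) 1) : |(1 / 10 - 112 / 25 * v) * ρ n v| ≤ 5 := by
  rw [abs_mul, abs_of_nonneg ((hρ n).2.2.2.1 v)]
  have h1 : |1 / 10 - 112 / 25 * v| ≤ 5 := by
    rw [abs_le]
    constructor <;> linarith [hv.1, hv.2]
  exact (mul_le_mul h1 ((hρ n).2.2.2.2 v) ((hρ n).2.2.2.1 v) (by norm_num)).trans (by norm_num)

lemma D_tendsto {v : ℝ} (hv : v ∈ Ioo (0 : ℝ) 1) :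
    Tendsto (fun n => (1 / 10 - 112 / 25 * v) * ρ n v) atTop (𝓝 (DI v)) := by
  unfold DI
  by_cases h : v < 1 / 2
  · rw [if_pos h]
    have h2 : |v| < 1 / 2 := by rw [abs_of_pos hv.1]; exact h
    simpa using (rho_tendsto hρ h2).const_mul (1 / 10 - 112 / 25 * v)
  · rw [if_neg h]
    apply tendsto_const_nhds.congr
    intro n
    rw [rho_zero hρ n (by rw [abs_of_pos hv.1]; exact not_lt.1 h), mul_zero]

lemma R_tendsto {u : ℝ} (hu0 : 0 ≤ u) : Tendsto (fun n => Rn (ρ n) u) atTop (𝓝 (PI u)) := by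
  by_cases h : u < 1 / 2
  · have h1 := dct (F := fun n v => (1 / 10 - 112 / 25 * v) * ρ n v) (f := DI) (B := 5) hu0 (by linarith : u ≤ 1) le_rfl
      (fun n => by
        have := (hρ n).1.continuous
        fun_prop) (fun n v hv => D_bound hρ n hv) (fun v hv => D_tendsto hρ hv)
    have h2 : ∫ v in u..1, DI v = -PI u := by
      unfold DI
      rw [int_trunc (fun u => 1 / 10 - 112 / 25 * u) (by fun_prop) h.le]
      have hd : ∀ x ∈ uIcc u (1 / 2 : ℝ), HasDerivAt (fun x : ℝ => 1 / 10 * x - 56 / 25 * x ^ 2)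
          (1 / 10 - 112 / 25 * x) x := by
        intro x _
        have h1 := hasDerivAt_id x
        refine ((h1.const_mul (1 / 10 : ℝ)).sub ((h1.pow 2).const_mul (56 / 25 : ℝ))).congr_deriv ?_
        simp only [id]
        push_cast
        ring
      rw [intervalIntegral.integral_eq_sub_of_hasDerivAt hd (Continuous.intervalIntegrable (by fun_prop) _ _)]
      unfold PI
      rw [if_pos h]
      ring
    rw [h2] at h1
    have h3 := h1.neg
    rw [neg_neg] at h3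
    refine h3.congr fun n => ?_
    unfold Rn
    rw [intervalIntegral.integral_symm]
    ring
  · unfold PI
    rw [if_neg h]
    apply tendsto_const_nhds.congr
    intro n
    exact (Rn_zero (b := 1 / 2) (by norm_num) (by norm_num) (fun x hx => rho_zero hρ n hx) (not_lt.1 h)).symm

lemma R_bound (n : ℕ) {u : ℝ} (hu : u ∈ Icc (0 : ℝ) 1) : |Rn (ρ n) u| ≤ 5 := by
  unfold Rn
  have := intervalIntegral.norm_integral_le_of_norm_le_const (a := 1) (b := u) (f := fun v => (1 / 10 - 112 / 25 * v) * ρ n v)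
    (C := 5) (fun x hx => by
      rw [uIoc_comm, uIoc_of_le hu.2] at hx
      rw [Real.norm_eq_abs]
      exact D_bound hρ n ⟨by linarith [hx.1, hu.1], hx.2⟩)
  rw [Real.norm_eq_abs] at this
  refine this.trans ?_
  have h1 : |u - 1| ≤ 1 := by rw [abs_le]; constructor <;> linarith [hu.1, hu.2]
  linarith

end

/-- The explicit choice of the prime kernel `χ` and of the mollifier `P`: `J < 0.29275`. -/
theorem exists_data : ∃ (χ P : ℝ → ℝ) (ε : ℝ), 0 < ε ∧ ε < 1 / 2 ∧ Nice χ ∧ (∀ x, 0 ≤ cosT χ x) ∧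
    Real.sqrt 2 - 1 ≤ cosT χ 0 ∧ (∀ u, 1 - ε ≤ |u| → χ u = 0) ∧
    ContDiff ℝ ∞ P ∧ HasCompactSupport P ∧ (∀ u, 1 / 2 - ε ≤ u → P u = 0) ∧
    JJ (1 + χ 0 - 2 * cosT χ 0) (fun u => -2 * χ u) P < 0.29275 := by
  obtain ⟨ρ, hρ⟩ := exists_rho
  set φ : ℕ → ℝ → ℝ := fun n x => ρ n x * q0 x with hφ
  have hac0 : Tendsto (fun n => ac (φ n) 0) atTop (𝓝 (Ap 0)) := ac_tendsto hρ le_rfl one_pos
  have hψ0 : Tendsto (fun n => cosT (ac (φ n)) 0) atTop (𝓝 (103 / 160 * (103 / 160))) := by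
    refine ((cosT_phi_tendsto hρ).mul (cosT_phi_tendsto hρ)).congr fun n => ?_
    rw [cosT_ac (nice_phi hρ n)]
  have hJ : Tendsto (fun n => JJ (1 + ac (φ n) 0 - 2 * cosT (ac (φ n)) 0) (fun u => -2 * ac (φ n) u) (Pn (ρ n))) atTop
      (𝓝 (JL (15011 / 25600) al PI DI)) := by
    apply JJ_tendsto (B := 5) (by norm_num)
    · intro n
      exact continuous_const.mul (nice_ac (nice_phi hρ n)).continuous
    · intro n v _
      rw [abs_mul]
      have := ac_bound hρ n v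
      norm_num
      linarith
    · intro v hv
      exact (ac_tendsto hρ hv.1.le hv.2).const_mul (-2)
    · exact fun n => contDiff_Pn (hρ n).1.smooth
    · intro n v hv
      rw [Pn_eq (by linarith [hv.1])]
      exact R_bound hρ n hv
    · refine (R_tendsto hρ (le_refl 0)).congr fun n => (Pn_eq (by norm_num)).symm
    · intro v hv
      refine (R_tendsto hρ hv.1.le).congr fun n => (Pn_eq (by linarith [hv.1])).symm
    · intro n v hv
      rw [deriv_Pn (hρ n).1.continuous hv.1]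
      exact D_bound hρ n hv
    · intro v hv
      refine (D_tendsto hρ hv).congr fun n => (deriv_Pn (hρ n).1.continuous hv.1.le).symm
    · have h1 := (hac0.const_add 1).sub (hψ0.const_mul 2)
      have h2 : 1 + Ap 0 - 2 * (103 / 160 * (103 / 160)) = 15011 / 25600 := by
        unfold Ap
        norm_num
      rwa [h2] at h1
  rw [JL_value] at hJ
  have h1 := hJ.eventually (gt_mem_nhds (show (30214637521/103219200000 : ℝ) < 0.29275 by norm_num))
  have h2 := hψ0.eventually (lt_mem_nhds (show Real.sqrt 2 - 1 < 103 / 160 * (103 / 160) by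
    have : Real.sqrt 2 < 1 + 103 / 160 * (103 / 160) := by
      rw [Real.sqrt_lt' (by norm_num)]
      norm_num
    linarith))
  obtain ⟨n, h3, h4⟩ := (h1.and h2).exists
  have hn : (8 : ℝ) ≤ n + 8 := by have : (0 : ℝ) ≤ n := n.cast_nonneg
                                  linarith
  have hn1 : 1 / (n + 8 : ℝ) ≤ 1 / 8 := one_div_le_one_div_of_le (by norm_num) hn
  have hn0 : 0 < 1 / (n + 8 : ℝ) := by positivity
  refine ⟨ac (φ n), Pn (ρ n), 1 / (n + 8 : ℝ), hn0, by linarith, nice_ac (nice_phi hρ n), ?_, h4.le, ?_,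
    contDiff_Pn (hρ n).1.smooth, Pn_cpt (by linarith) (by linarith) (hρ n).2.1, ?_, h3⟩
  · intro x
    rw [cosT_ac (nice_phi hρ n)]
    exact mul_self_nonneg _
  · intro u hu
    apply ac_supp (s := 1 / 2 - 1 / (n + 8 : ℝ))
    · intro x hx
      simp only [hφ]
      rw [(hρ n).2.1 x hx, zero_mul]
    · linarith
  · intro u hu
    exact Pn_zero (by linarith) (by linarith) (hρ n).2.1 hu

end Pool.Agent.H26.SZ
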