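import Mathlib
import Pool.Agent.H82.SZ.Defs
import Pool.Agent.H26.SZ.Fd
import Pool.Agent.H26.SZ.Fi

/-!
# MP_103a5c_SZ, block F: the final theorem from `MomentBound`
-/

open MeasureTheory Set Filter Topology
open scoped Real ContDiff ArithmeticFunction.vonMangoldt ArithmeticFunction.Moebius ArithmeticFunction.zeta

namespace Pool.Agent.H26.SZ

open Pool.Agent Pool.Agent.H6 H82SZ

lemma cpow_re {n : ℕ} (hn : n ≠ 0) (t : ℝ) :
    ((n : ℂ) ^ (-(1 / 2 + (t : ℂ) * Complex.I))).re = (n : ℝ) ^ (-(1 / 2) : ℝ) * Real.cos (t * Real.log n) := by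
  have h0 : (n : ℂ) ≠ 0 := by exact_mod_cast hn
  have hn0 : 0 < (n : ℝ) := by exact_mod_cast Nat.pos_of_ne_zero hn
  rw [Complex.cpow_def_of_ne_zero h0, ← Complex.natCast_log]
  rw [show ((Real.log n : ℝ) : ℂ) * (-(1 / 2 + (t : ℂ) * Complex.I)) =
    ((-(Real.log n / 2) : ℝ) : ℂ) + ((-(t * Real.log n) : ℝ) : ℂ) * Complex.I by push_cast; ring, Complex.exp_add,
    ← Complex.ofReal_exp, Complex.re_ofReal_mul, Complex.exp_ofReal_mul_I_re, Real.cos_neg]
  congr 1
  rw [Real.rpow_def_of_pos hn0]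
  congr 1
  ring

lemma y0_apply (c0 : ℝ) (α : ℝ → ℝ) (T : ℝ) (n : ℕ) : y0 c0 α T n = c0 * (if n = 1 then 1 else 0) +
    ArithmeticFunction.vonMangoldt n * α (Real.log n / Real.log T) / Real.log T := by
  have : y0 c0 α T n = c0 * ((1 : ArithmeticFunction ℝ) n) + yk α T n := rfl
  rw [this, ArithmeticFunction.one_apply]
  rfl

/-- The real part of the prime polynomial. -/
lemma re_Ys {χ : ℝ → ℝ} (hχ : Nice χ) {ε : ℝ} (hε : 0 < ε) (hs : ∀ u, 1 - ε ≤ |u| → χ u = 0) (c0 : ℝ) {T : ℝ} (hT : 1 < T) (t : ℝ) :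
    (dpol T (y0 c0 (fun u => -2 * χ u) T) (1 / 2 + (t : ℂ) * Complex.I)).re = c0 - WW (cosT χ) (Real.log T) t := by
  have hL : 0 < Real.log T := Real.log_pos hT
  have hN : 1 ≤ NT T := by
    unfold NT
    rw [Nat.one_le_floor_iff]
    exact hT.le
  unfold WW
  rw [tsum_eq_sum (s := Finset.Icc 1 (NT T))]
  · unfold dpol
    rw [Complex.re_sum]
    have e : ∀ n ∈ Finset.Icc 1 (NT T), (((y0 c0 (fun u => -2 * χ u) T n : ℝ) : ℂ) * (n : ℂ) ^ (-(1 / 2 + (t : ℂ) * Complex.I))).re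
        = c0 * (if n = 1 then 1 else 0) - (2 / Real.log T) * ((ArithmeticFunction.vonMangoldt n * (n : ℝ) ^ (-(1 / 2) : ℝ) *
          cosT (cosT χ) (Real.log n / Real.log T)) * Real.cos (t * Real.log n)) := by
      intro n hn
      have hn1 : n ≠ 0 := by have := (Finset.mem_Icc.1 hn).1; omega
      rw [Complex.re_ofReal_mul, cpow_re hn1, hχ.inv]
      rw [y0_apply]
      by_cases h1 : n = 1
      · subst h1
        simp
      · rw [if_neg h1]
        ring
    rw [Finset.sum_congr rfl e, Finset.sum_sub_distrib, ← Finset.mul_sum, ← Finset.mul_sum]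
    congr 1
    rw [Finset.sum_ite_eq' (Finset.Icc 1 (NT T)) 1 (fun _ => (1 : ℝ)), if_pos (Finset.mem_Icc.2 ⟨le_rfl, hN⟩), mul_one]
  · intro n hn
    rw [hχ.inv]
    by_cases h0 : n = 0
    · subst h0; simp
    · rw [hs, mul_zero, zero_mul]
      rw [Finset.mem_Icc, not_and_or] at hn
      have h1 : NT T < n := by
        rcases hn with hn | hn
        · omega
        · omega
      have h2 : T < n := Nat.lt_of_floor_lt h1
      have h3 : Real.log T < Real.log n := Real.log_lt_log (by linarith) h2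
      have h4 : 1 < Real.log n / Real.log T := by rwa [one_lt_div hL]
      rw [abs_of_pos (by linarith)]
      linarith

/-- The moment bound (assembly of the blocks M, E, C, K). -/
def MomentBound : Prop := ∀ (c0 ε : ℝ) (α P : ℝ → ℝ), 0 < ε → ε < 1 / 2 → Adm (1 - ε) α → Adm (1 / 2 - ε) P →
  ∀ δ : ℝ, 0 < δ → ∀ᶠ T in atTop, ∀ S : Finset ℝ, (∀ g ∈ S, g ∈ PC.Z ∧ T / 4 ≤ g ∧ g ≤ 4 * T) →
    ∑ g ∈ S, (PC.m g : ℝ) * Gw T g * ‖FF c0 α P T (1 / 2 + g * Complex.I)‖ ^ 2 ≤
      (JJ c0 α P + δ) * (om T * Real.log T)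

/-- **Simple zeros beyond `19/27`.**  The Riemann hypothesis and the moment bound imply `N(T; 0, 0) ≤ 1.2928 (T/2π) log T`,
at least `0.7072` of the zeros are simple, and at least `0.8536` are distinct. -/
theorem final (RH : RiemannHypothesis) (hMB : MomentBound) : ∀ᶠ T in atTop,
      PC.pairCount T 0 0 ≤ 1.2928 * PC.norm T ∧
      0.7072 * PC.norm T ≤ (({ρ : ℂ | ρ ∈ PC.zerosUpTo T ∧ deriv riemannZeta ρ ≠ 0}.ncard : ℕ) : ℝ) ∧
      0.8536 * PC.norm T ≤ (((PC.zerosUpTo T).ncard : ℕ) : ℝ) := by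
  obtain ⟨χ, P, ε, hε, hε2, hχ, hpos, hβ, hχs, hPsm, hPc, hPs, hJ⟩ := exists_data
  have hα : Adm (1 - ε) (fun u => -2 * χ u) := by
    refine ⟨contDiff_const.mul hχ.smooth, hχ.hasCompactSupport.mul_left, fun v hv => ?_⟩
    rw [hχs v (hv.trans (le_abs_self v)), mul_zero]
  have hP : Adm (1 / 2 - ε) P := ⟨hPsm, hPc, hPs⟩
  set c0 := 1 + χ 0 - 2 * cosT χ 0 with hc0
  set Ys : ℝ → ℂ → ℂ := fun T s => dpol T (y0 c0 (fun u => -2 * χ u) T) s with hYs
  set Ms : ℝ → ℂ → ℂ := fun T s => dpol T (xk P T) s / (Real.log T : ℂ) with hMs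
  have hM : MBound (fun T s => Ys T s - deriv riemannZeta s * Ms T s) 0.29275 := by
    intro δ hδ
    filter_upwards [hMB c0 ε _ P hε hε2 hα hP δ hδ, eventually_gt_atTop (1 : ℝ)] with T hT hT1 F hF
    classical
    have h1 := hT (F.map ⟨(Subtype.val : PC.Z → ℝ), Subtype.val_injective⟩) (by
      intro g hg
      obtain ⟨i, hi, rfl⟩ := Finset.mem_map.1 hg
      have := hF i hi
      exact ⟨i.2, this.1, this.2⟩)
    rw [Finset.sum_map] at h1
    have hL : 0 < Real.log T := Real.log_pos hT1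
    have h2 : om T * Real.log T = T * Real.sqrt (Real.log T) / (2 * Real.sqrt π) := by
      unfold om
      have h3 : Real.log T = Real.sqrt (Real.log T) * Real.sqrt (Real.log T) := (Real.mul_self_sqrt hL.le).symm
      have h4 : Real.sqrt (Real.log T) ≠ 0 := (Real.sqrt_pos.2 hL).ne'
      have h5 : Real.sqrt π ≠ 0 := (Real.sqrt_pos.2 Real.pi_pos).ne'
      nth_rewrite 2 [h3]
      field_simp
    rw [h2] at h1
    have h3 : 0 ≤ T * Real.sqrt (Real.log T) / (2 * Real.sqrt π) := by positivity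
    refine le_trans (le_of_eq ?_) (h1.trans (mul_le_mul_of_nonneg_right (by linarith) h3))
    refine Finset.sum_congr rfl fun i _ => ?_
    have e : Ys T (rZ i) - deriv riemannZeta (rZ i) * Ms T (rZ i) =
        FF c0 (fun u => -2 * χ u) P T (1 / 2 + ((i : ℝ) : ℂ) * Complex.I) := by
      simp only [hYs, hMs, FF, rZ]
      rw [mul_div_assoc]
    simp only [Function.Embedding.coeFn_mk]
    rw [e, ← mul_assoc]
    rfl
  have h := counts RH (J := 0.29275) (fun δ hδ => mult_bound RH hχ hpos hβ (by norm_num) (Ys := Ys) (Ms := Ms)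
    (by
      filter_upwards [eventually_gt_atTop (1 : ℝ)] with T hT t
      exact re_Ys hχ hε hχs c0 hT t) hM hδ) (ε := 0.00001) (by norm_num)
  filter_upwards [h, eventually_gt_atTop (1 : ℝ)] with T hT hT1
  have hN0 : 0 ≤ PC.norm T := by
    have : PC.norm T = T / (2 * π) * Real.log T := rfl
    rw [this]
    have := Real.log_pos hT1
    positivity
  obtain ⟨a, b, c⟩ := hT
  refine ⟨a.trans (mul_le_mul_of_nonneg_right (by norm_num) hN0), le_trans (mul_le_mul_of_nonneg_right (by norm_num) hN0) b,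
    le_trans (mul_le_mul_of_nonneg_right (by norm_num) hN0) c⟩

end Pool.Agent.H26.SZ
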